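import Mathlib
import Pool.Agent.H71.DX.Nff
import Pool.Agent.H2.NE.Main

/-!
VIZ: the theorem of Vizing for colourings given by matchings.

Proof.  As at the beginning of the proof of `natf` in `H71/DX/Nff.lean` (proved): `V` empty is trivial (`mm := fun _ => id`). Otherwise `N ≥ 1`, `H28.vizing` with `d := N - 1` gives `c` with `H28.ECol H N`; `mm := nff_nu H c`
(private lemmas `nff_adj, nff_eq, nff_inv`-like of that file can be copied). `cov`: if `H.Adj a b` then `mm (c s(a, b)) a = b`. `dis`: as `hdis` there.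
-/

set_option autoImplicit false

namespace Pool.Agent.H2.FC

open Finset Classical
open Pool.Agent.H71.DN Pool.Agent.H2.NE

theorem viz {V : Type} [Fintype V] (H : SimpleGraph V) (N : ℕ) (hN : ∀ v, dg H v + 1 ≤ N) :
    ∃ mm : ℕ → V → V, Col H N mm := by
  rcases isEmpty_or_nonempty V with hV | ⟨⟨v0⟩⟩
  · refine ⟨fun _ => id, ⟨fun _ _ v => rfl, fun _ _ v => (hV.false v).elim,
      fun _ _ _ _ _ v => (hV.false v).elim, fun a => (hV.false a).elim⟩⟩
  have hN1 : 1 ≤ N := by have := hN v0; omega
  obtain ⟨c, hc⟩ : Pool.Agent.H28.ECol H N := by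
    have h1 := Pool.Agent.H28.vizing (G := H) (d := N - 1) (fun v => by
      have h2 : (H.neighborSet v).ncard = dg H v := by
        unfold dg
        rw [Set.ncard_eq_toFinset_card']
        congr 1
        ext u
        simp
      rw [h2]
      have := hN v
      omega)
    rwa [Nat.sub_add_cancel hN1] at h1
  refine ⟨Pool.Agent.H71.DX.nff_nu H c, ⟨?_, ?_, ?_, ?_⟩⟩
  · intro l _
    exact Pool.Agent.H71.DX.nff_inv hc l
  · intro l _ v h
    exact (Pool.Agent.H71.DX.nff_adj h).1
  · intro i _ j _ hij v h1 h2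
    apply hij
    have h3 := (Pool.Agent.H71.DX.nff_adj h1).2
    have h4 : Pool.Agent.H71.DX.nff_nu H c j v ≠ v := by rw [← h2]; exact h1
    have h5 := (Pool.Agent.H71.DX.nff_adj h4).2
    rw [← h3, ← h5, h2]
  · intro a b' hab
    exact ⟨c s(a, b'), hc.1 a b' hab, Pool.Agent.H71.DX.nff_eq hc hab rfl⟩

end Pool.Agent.H2.FC
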