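import Mathlib

/-!
GRD: a subset of vectors whose sum is nearly `θ` times the whole sum.

Proof.  Induction on `S` (`Finset.induction_on`). `S = ∅`: `T = ∅`. Step `S ∪ {e}`, `e ∉ S`: let `T ⊆ S` be given by the induction hypothesis and `D P := ∑_{T} s · P - θ ∑_S s · P`. For `T ∪ {e}` the new difference is `D P + (1 - θ) s e P`, for `T` (without `e`) it is `D P - θ s e P`.
`θ ∑_P (D P + (1 - θ) s e P)² + (1 - θ) ∑_P (D P - θ s e P)² = ∑_P D P² + θ (1 - θ) ∑_P (s e P)² ≤ M #S + M`. So one of the two sums is at most `M (#S + 1)` (if both were larger, the convex combination would be larger).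
-/

set_option autoImplicit false

namespace Pool.Agent.H2.FC

open Finset

theorem grd {E : Type} [DecidableEq E] (S : Finset E) (m : ℕ) (s : E → ℕ → ℝ) (M θ : ℝ)
    (hM : ∀ e ∈ S, ∑ P ∈ range m, s e P ^ 2 ≤ M) (h0 : 0 ≤ θ) (h1 : θ ≤ 1) :
    ∃ T : Finset E, T ⊆ S ∧
      ∑ P ∈ range m, (∑ e ∈ T, s e P - θ * ∑ e ∈ S, s e P) ^ 2 ≤ M * S.card := by
  induction S using Finset.induction_on with
  | empty => exact ⟨∅, Finset.Subset.refl _, by simp⟩
  | insert e S he ih =>
    obtain ⟨T, hT, hb⟩ := ih (fun x hx => hM x (Finset.mem_insert_of_mem hx))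
    have heT : e ∉ T := fun h => he (hT h)
    have hMe := hM e (Finset.mem_insert_self e S)
    have hM0 : 0 ≤ M := le_trans (Finset.sum_nonneg fun P _ => sq_nonneg (s e P)) hMe
    set D : ℕ → ℝ := fun P => ∑ e ∈ T, s e P - θ * ∑ e ∈ S, s e P with hD
    have key : θ * ∑ P ∈ range m, (D P + (1 - θ) * s e P) ^ 2
        + (1 - θ) * ∑ P ∈ range m, (D P - θ * s e P) ^ 2
        = ∑ P ∈ range m, D P ^ 2 + θ * (1 - θ) * ∑ P ∈ range m, s e P ^ 2 := by
      rw [Finset.mul_sum, Finset.mul_sum, Finset.mul_sum, ← Finset.sum_add_distrib,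
        ← Finset.sum_add_distrib]
      refine Finset.sum_congr rfl fun P _ => ?_
      ring
    have hth : θ * (1 - θ) ≤ 1 := by nlinarith
    have hth0 : 0 ≤ θ * (1 - θ) := mul_nonneg h0 (by linarith)
    have hle : θ * (1 - θ) * ∑ P ∈ range m, s e P ^ 2 ≤ M := by
      calc θ * (1 - θ) * ∑ P ∈ range m, s e P ^ 2 ≤ θ * (1 - θ) * M :=
            mul_le_mul_of_nonneg_left hMe hth0
        _ ≤ 1 * M := mul_le_mul_of_nonneg_right hth hM0
        _ = M := one_mul M
    have hcard : ((insert e S).card : ℝ) = S.card + 1 := by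
      rw [Finset.card_insert_of_notMem he]; push_cast; ring
    by_cases hA : ∑ P ∈ range m, (D P + (1 - θ) * s e P) ^ 2 ≤ M * (S.card + 1)
    · refine ⟨insert e T, Finset.insert_subset_insert e hT, ?_⟩
      rw [hcard]
      refine le_trans (le_of_eq ?_) hA
      refine Finset.sum_congr rfl fun P _ => ?_
      rw [Finset.sum_insert heT, Finset.sum_insert he, hD]
      ring
    · refine ⟨T, hT.trans (Finset.subset_insert e S), ?_⟩
      rw [hcard]
      have hB : ∑ P ∈ range m, (D P - θ * s e P) ^ 2 ≤ M * (S.card + 1) := by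
        by_contra hB
        push Not at hA hB
        have hc : M * (S.card + 1) < θ * ∑ P ∈ range m, (D P + (1 - θ) * s e P) ^ 2
            + (1 - θ) * ∑ P ∈ range m, (D P - θ * s e P) ^ 2 := by
          rcases eq_or_lt_of_le h0 with h | h
          · rw [← h] at hB ⊢; simpa using hB
          · have e1 := mul_lt_mul_of_pos_left hA h
            have e2 := mul_le_mul_of_nonneg_left hB.le (sub_nonneg.2 h1)
            nlinarith
        rw [key] at hc
        nlinarith
      refine le_trans (le_of_eq ?_) hB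
      refine Finset.sum_congr rfl fun P _ => ?_
      rw [Finset.sum_insert he, hD]
      ring

end Pool.Agent.H2.FC
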