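import Mathlib
import Pool.Agent.H71.HL.Defs
import Pool.Agent.H2.FC.Grd

/-!
GRD2: two disjoint graphs `E1, E2` of edges inside `Lo` with proportional weighted degrees. Use the STATEMENT of `grd` (`FC/Grd.lean`).

Proof.  `E :=` the finset of the `e : Sym2 V` in `G.edgeFinset` with both ends in `Lo`, `#E ≤ #Lo² / 2` (or `≤ #Lo²`, which is also enough for `≤ 2 #Lo`: see below). `s e P := q a P + q b P` for `e = s(a, b)` (`Sym2.lift`). `∑_P (s e P)² ≤ (∑_P s e P)² ≤ 4` (non-negative numbers with sum `≤ 2`).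
`grd E m s 4 θ` gives `T1 ⊆ E` with `∑_P (..)² ≤ 4 #E ≤ 4 #Lo² / 2`; so `|∑_{T1} s e P - θ ∑_E s e P| ≤ 2 #Lo`. `E1.Adj a b := a ≠ b ∧ s(a, b) ∈ T1`. For every finset `T ⊆ E`: `∑_{e ∈ T} s e P = ∑_{w ∈ Lo} (number of the b with s(w, b) ∈ T) q w P` (double counting of the pairs (end, edge)): so
`∑_{T1} s e P = ∑_w dg E1 w q w P`, `∑_E s e P = ∑_w dgi G Lo w q w P`.
Then `grd (E \ T1) m s 4 θ'`, `θ' := θ / (1 - θ) ≤ 1`, gives `T2 ⊆ E \ T1` with `|∑_{T2} s e P - θ' ∑_{E \ T1} s e P| ≤ 2 #Lo`. `∑_{E \ T1} = ∑_E - ∑_{T1}`, `|∑_{E \ T1} s e P - (1 - θ) ∑_E s e P| ≤ 2 #Lo`, so `|∑_{T2} s e P - θ ∑_E s e P| ≤ 2 #Lo + θ' 2 #Lo ≤ 4 #Lo`.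
-/

set_option autoImplicit false

namespace Pool.Agent.H2.FC

open Finset Classical
open Pool.Agent.H71.DN Pool.Agent.H71.HL

/-- The graph of the pairs in `T`. -/
private def gof {V : Type} (T : Finset (Sym2 V)) : SimpleGraph V where
  Adj a b := a ≠ b ∧ s(a, b) ∈ T
  symm := ⟨fun a b h => ⟨fun e => h.1 e.symm, by rw [Sym2.eq_swap]; exact h.2⟩⟩
  loopless := ⟨fun a h => h.1 rfl⟩

private theorem cnt {V : Type} [Fintype V] (T : Finset (Sym2 V)) (hT : ∀ e ∈ T, ¬ e.IsDiag)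
    (w : V) : (T.filter fun e => w ∈ e).card = dg (gof T) w := by
  unfold dg
  rw [← Finset.card_image_of_injective (univ.filter fun u => (gof T).Adj w u)
    (f := fun u => s(w, u)) (fun a b h => Sym2.congr_right.1 h)]
  congr 1
  ext e
  simp only [Finset.mem_filter, Finset.mem_image, Finset.mem_univ, true_and]
  constructor
  · rintro ⟨he, hw⟩
    obtain ⟨u, rfl⟩ := Sym2.mem_iff_exists.1 hw
    refine ⟨u, ⟨fun h => hT _ he (by rw [h]; exact rfl), he⟩, rfl⟩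
  · rintro ⟨u, hu, rfl⟩
    exact ⟨hu.2, Sym2.mem_mk_left w u⟩

private theorem dbl {V : Type} [Fintype V] (Lo : Finset V) (q : V → ℕ → ℝ)
    (T : Finset (Sym2 V)) (hT : ∀ e ∈ T, ¬ e.IsDiag) (P : ℕ) :
    ∑ e ∈ T, (∑ w ∈ Lo, if w ∈ e then q w P else 0) =
      ∑ w ∈ Lo, (dg (gof T) w : ℝ) * q w P := by
  rw [Finset.sum_comm]
  refine Finset.sum_congr rfl fun w _ => ?_
  rw [← cnt T hT w, ← Finset.sum_filter, Finset.sum_const, nsmul_eq_mul]

theorem grd2 {V : Type} [Fintype V] (G : SimpleGraph V) (Lo : Finset V) (m : ℕ)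
    (q : V → ℕ → ℝ) (hq0 : ∀ v P, 0 ≤ q v P) (hq1 : ∀ v ∈ Lo, ∑ P ∈ range m, q v P ≤ 1) (θ : ℝ)
    (h0 : 0 ≤ θ) (h1 : θ ≤ 1 / 2) :
    ∃ E1 E2 : SimpleGraph V, (∀ a b, E1.Adj a b → G.Adj a b ∧ a ∈ Lo ∧ b ∈ Lo) ∧
      (∀ a b, E2.Adj a b → G.Adj a b ∧ a ∈ Lo ∧ b ∈ Lo) ∧
      (∀ a b, E1.Adj a b → ¬ E2.Adj a b) ∧
      (∀ P < m, |∑ w ∈ Lo, (dg E1 w : ℝ) * q w P -
        θ * ∑ w ∈ Lo, (dgi G Lo w : ℝ) * q w P| ≤ 4 * Lo.card) ∧
      (∀ P < m, |∑ w ∈ Lo, (dg E2 w : ℝ) * q w P -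
        θ * ∑ w ∈ Lo, (dgi G Lo w : ℝ) * q w P| ≤ 4 * Lo.card) := by
  set E : Finset (Sym2 V) :=
    (univ : Finset (Sym2 V)).filter (fun e => e ∈ G.edgeSet ∧ ∀ v ∈ e, v ∈ Lo) with hE
  have hEd : ∀ e ∈ E, ¬ e.IsDiag := by
    intro e he
    exact G.not_isDiag_of_mem_edgeSet (Finset.mem_filter.1 he).2.1
  set s : Sym2 V → ℕ → ℝ := fun e P => ∑ w ∈ Lo, if w ∈ e then q w P else 0 with hs
  have hs0 : ∀ e P, 0 ≤ s e P := by
    intro e P
    refine Finset.sum_nonneg fun w _ => ?_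
    split_ifs
    · exact hq0 w P
    · exact le_refl 0
  have hs2 : ∀ e, ∑ P ∈ range m, s e P ≤ 2 := by
    intro e
    simp only [hs]
    rw [Finset.sum_comm]
    have h2 : ∑ w ∈ Lo, ∑ P ∈ range m, (if w ∈ e then q w P else 0) ≤
        ∑ w ∈ Lo, (if w ∈ e then (1 : ℝ) else 0) := by
      refine Finset.sum_le_sum fun w hw => ?_
      by_cases h : w ∈ e
      · simp only [h, if_true]
        exact hq1 w hw
      · simp [h]
    refine h2.trans ?_
    rw [← Finset.sum_filter, Finset.sum_const, nsmul_eq_mul, mul_one]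
    have h3 : (Lo.filter fun w => w ∈ e).card ≤ 2 := by
      induction e using Sym2.ind with
      | _ a b =>
        refine le_trans (Finset.card_le_card (t := {a, b}) ?_) Finset.card_le_two
        intro w hw
        have := (Finset.mem_filter.1 hw).2
        simpa using this
    exact_mod_cast h3
  have hsq : ∀ e, ∑ P ∈ range m, s e P ^ 2 ≤ 4 := by
    intro e
    have h4 : ∑ P ∈ range m, s e P ^ 2 ≤ ∑ P ∈ range m, 2 * s e P := by
      refine Finset.sum_le_sum fun P hP => ?_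
      have h5 : s e P ≤ 2 :=
        (Finset.single_le_sum (fun R _ => hs0 e R) hP).trans (hs2 e)
      nlinarith [hs0 e P]
    rw [← Finset.mul_sum] at h4
    linarith [hs2 e]
  have hcard : (E.card : ℝ) ≤ (Lo.card : ℝ) ^ 2 := by
    have h6 : E ⊆ (Lo ×ˢ Lo).image (fun x => s(x.1, x.2)) := by
      intro e he
      have he2 := (Finset.mem_filter.1 he).2.2
      induction e using Sym2.ind with
      | _ a b =>
        refine Finset.mem_image.2 ⟨(a, b), Finset.mem_product.2 ⟨?_, ?_⟩, rfl⟩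
        · exact he2 a (Sym2.mem_mk_left a b)
        · exact he2 b (Sym2.mem_mk_right a b)
    have h7 : E.card ≤ Lo.card * Lo.card := by
      refine (Finset.card_le_card h6).trans (Finset.card_image_le.trans ?_)
      rw [Finset.card_product]
    have h8 : ((E.card : ℕ) : ℝ) ≤ ((Lo.card * Lo.card : ℕ) : ℝ) := by exact_mod_cast h7
    push_cast at h8
    nlinarith
  have hext : ∀ (S : Finset (Sym2 V)) (T : Finset (Sym2 V)) (t : ℝ), S ⊆ E →
      ∑ P ∈ range m, (∑ e ∈ T, s e P - t * ∑ e ∈ S, s e P) ^ 2 ≤ 4 * S.card →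
      ∀ P < m, |∑ e ∈ T, s e P - t * ∑ e ∈ S, s e P| ≤ 2 * Lo.card := by
    intro S T t hS hb P hP
    have h9 : (∑ e ∈ T, s e P - t * ∑ e ∈ S, s e P) ^ 2 ≤ 4 * S.card :=
      (Finset.single_le_sum (f := fun P => (∑ e ∈ T, s e P - t * ∑ e ∈ S, s e P) ^ 2)
        (fun R _ => sq_nonneg _) (Finset.mem_range.2 hP)).trans hb
    have h10 : (S.card : ℝ) ≤ E.card := by exact_mod_cast Finset.card_le_card hS
    have h11 : (∑ e ∈ T, s e P - t * ∑ e ∈ S, s e P) ^ 2 ≤ (2 * (Lo.card : ℝ)) ^ 2 := by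
      nlinarith
    exact abs_le_of_sq_le_sq h11 (by positivity)
  have hEw : ∀ P, ∑ e ∈ E, s e P = ∑ w ∈ Lo, (dgi G Lo w : ℝ) * q w P := by
    intro P
    rw [hs, dbl Lo q E hEd P]
    refine Finset.sum_congr rfl fun w hw => ?_
    have h12 : dg (gof E) w = dgi G Lo w := by
      unfold dg dgi
      congr 1
      ext u
      simp only [Finset.mem_filter, Finset.mem_univ, true_and]
      constructor
      · intro h
        have h13 := (Finset.mem_filter.1 h.2).2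
        exact ⟨h13.2 u (Sym2.mem_mk_right w u), (SimpleGraph.mem_edgeSet G).1 h13.1⟩
      · rintro ⟨hu, ha⟩
        refine ⟨G.ne_of_adj ha, Finset.mem_filter.2 ⟨Finset.mem_univ _,
          (SimpleGraph.mem_edgeSet G).2 ha, ?_⟩⟩
        intro v hv
        rcases Sym2.mem_iff.1 hv with h | h
        · rw [h]; exact hw
        · rw [h]; exact hu
    rw [h12]
  obtain ⟨T1, hT1, hb1⟩ := grd E m s 4 θ (fun e _ => hsq e) h0 (by linarith)
  have h1t : 0 < 1 - θ := by linarith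
  obtain ⟨T2, hT2, hb2⟩ := grd (E \ T1) m s 4 (θ / (1 - θ)) (fun e _ => hsq e)
    (by positivity) (by rw [div_le_one h1t]; linarith)
  have hT2E : T2 ⊆ E := hT2.trans Finset.sdiff_subset
  have hadj : ∀ T ⊆ E, ∀ a b, (gof T).Adj a b → G.Adj a b ∧ a ∈ Lo ∧ b ∈ Lo := by
    intro T hT a b h
    have h14 := (Finset.mem_filter.1 (hT h.2)).2
    exact ⟨(SimpleGraph.mem_edgeSet G).1 h14.1, h14.2 a (Sym2.mem_mk_left a b),
      h14.2 b (Sym2.mem_mk_right a b)⟩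
  have hc1 := hext E T1 θ (Finset.Subset.refl _) hb1
  have hc2 := hext (E \ T1) T2 (θ / (1 - θ)) Finset.sdiff_subset hb2
  have hd1 : ∀ P, ∑ e ∈ T1, s e P = ∑ w ∈ Lo, (dg (gof T1) w : ℝ) * q w P :=
    fun P => dbl Lo q T1 (fun e he => hEd e (hT1 he)) P
  have hd2 : ∀ P, ∑ e ∈ T2, s e P = ∑ w ∈ Lo, (dg (gof T2) w : ℝ) * q w P :=
    fun P => dbl Lo q T2 (fun e he => hEd e (hT2E he)) P
  refine ⟨gof T1, gof T2, hadj T1 hT1, hadj T2 hT2E, ?_, ?_, ?_⟩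
  · intro a b h h'
    exact (Finset.mem_sdiff.1 (hT2 h'.2)).2 h.2
  · intro P hP
    rw [← hd1 P, ← hEw P]
    have := hc1 P hP
    have h15 : (0 : ℝ) ≤ Lo.card := by positivity
    linarith
  · intro P hP
    rw [← hd2 P, ← hEw P]
    have h16 := hc1 P hP
    have h17 := hc2 P hP
    have h18 : ∑ e ∈ E \ T1, s e P = ∑ e ∈ E, s e P - ∑ e ∈ T1, s e P := by
      rw [← Finset.sum_sdiff hT1]; ring
    rw [h18] at h17
    have hth : 0 ≤ θ / (1 - θ) := by positivity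
    have hth1 : θ / (1 - θ) ≤ 1 := by rw [div_le_one h1t]; linarith
    have h19 : ∑ e ∈ T2, s e P - θ * ∑ e ∈ E, s e P =
        (∑ e ∈ T2, s e P - θ / (1 - θ) * (∑ e ∈ E, s e P - ∑ e ∈ T1, s e P)) -
          θ / (1 - θ) * (∑ e ∈ T1, s e P - θ * ∑ e ∈ E, s e P) := by
      field_simp
      ring
    rw [h19]
    have h20 : |θ / (1 - θ) * (∑ e ∈ T1, s e P - θ * ∑ e ∈ E, s e P)| ≤ 2 * Lo.card := by
      rw [abs_mul, abs_of_nonneg hth]
      calc θ / (1 - θ) * |∑ e ∈ T1, s e P - θ * ∑ e ∈ E, s e P|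
          ≤ 1 * (2 * Lo.card) :=
            mul_le_mul hth1 h16 (abs_nonneg _) zero_le_one
        _ = 2 * Lo.card := one_mul _
    refine (abs_sub _ _).trans ?_
    linarith

end Pool.Agent.H2.FC
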