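import Mathlib
import Pool.Agent.H71.TD.Ifc
import Pool.Agent.H2.NE.Main

/-!
Definitions for the colouring of the defect edges.
-/

set_option autoImplicit false

namespace Pool.Agent.H2.FC

open Finset Classical
open Pool.Agent.H71.DN Pool.Agent.H71.HL Pool.Agent.H71.DC

/-- The part of the neighbours of `w` outside the exceptional piece `m` that are in the piece `P`. -/
noncomputable def qq {V : Type} [Fintype V] (F : SimpleGraph V) (nd : V → ℕ) (m Δ : ℕ) (w : V)
    (P : ℕ) : ℝ :=
  (dgi F (pt nd P) w : ℝ) / ((Δ : ℝ) - dgi F (pt nd m) w)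

end Pool.Agent.H2.FC
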