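import Mathlib

/-!
DSN: distribution of `T` units to `m` places with capacities `u P`, near given real numbers `τ P`.

Proof.  `b P := min ⌊τ P⌋₊ (u P)`; `∑ b P ≤ ∑ τ P = T ≤ ∑ u P` and `b ≤ u`: there is `d` with `b P ≤ d P ≤ u P` and `∑ d P = T` (induction on `T - ∑ b P`: as long as `∑ d P < T ≤ ∑ u P` some `d P < u P` can be increased by one; or `Nat`-intermediate value along a
chain). `∑ |d P - τ P| ≤ ∑ (d P - b P) + ∑ (τ P - b P) = 2 ∑ (τ P - b P)` (`∑ d P = ∑ τ P`, `b P ≤ τ P`), and `τ P - b P ≤ 1 + max 0 (τ P - u P)`: if `b P = ⌊τ P⌋₊` it is `≤ 1`, if `b P = u P` it is `τ P - u P`.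
-/

set_option autoImplicit false

namespace Pool.Agent.H2.FC

open Finset

private theorem dsn_aux (b u : ℕ → ℕ) (m : ℕ) : ∀ T : ℕ, (∀ P < m, b P ≤ u P) →
    ∑ P ∈ range m, b P ≤ T → T ≤ ∑ P ∈ range m, u P →
    ∃ d : ℕ → ℕ, (∀ P < m, b P ≤ d P ∧ d P ≤ u P) ∧ ∑ P ∈ range m, d P = T := by
  induction m with
  | zero =>
    intro T _ _ h2
    refine ⟨fun _ => 0, fun P hP => absurd hP (Nat.not_lt_zero P), ?_⟩
    rw [range_zero, sum_empty] at h2 ⊢
    omega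
  | succ m ih =>
    intro T hb h1 h2
    rw [sum_range_succ] at h1 h2
    have hle : ∑ P ∈ range m, b P ≤ ∑ P ∈ range m, u P :=
      sum_le_sum fun P hP => hb P (by rw [mem_range] at hP; omega)
    have hbm := hb m (Nat.lt_succ_self m)
    obtain ⟨d, hd1, hd2⟩ := ih (T - min (u m) (T - ∑ P ∈ range m, b P))
      (fun P hP => hb P (by omega)) (by omega) (by omega)
    refine ⟨fun P => if P = m then min (u m) (T - ∑ P ∈ range m, b P) else d P, ?_, ?_⟩
    · intro P hP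
      dsimp only
      by_cases h : P = m
      · rw [if_pos h, h]
        constructor
        · omega
        · omega
      · rw [if_neg h]
        exact hd1 P (by omega)
    · rw [sum_range_succ, if_pos rfl]
      have h3 : ∑ P ∈ range m, (if P = m then min (u m) (T - ∑ P ∈ range m, b P) else d P) =
          ∑ P ∈ range m, d P := by
        refine sum_congr rfl fun P hP => ?_
        rw [mem_range] at hP
        rw [if_neg (by omega)]
      rw [h3, hd2]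
      omega

theorem dsn (m T : ℕ) (τ : ℕ → ℝ) (u : ℕ → ℕ) (h0 : ∀ P < m, 0 ≤ τ P)
    (h1 : ∑ P ∈ range m, τ P = T) (h2 : T ≤ ∑ P ∈ range m, u P) :
    ∃ d : ℕ → ℕ, (∀ P < m, d P ≤ u P) ∧ ∑ P ∈ range m, d P = T ∧
      ∑ P ∈ range m, |(d P : ℝ) - τ P| ≤ 2 * (m + ∑ P ∈ range m, max 0 (τ P - u P)) := by
  have hbt : ∀ P < m, ((min ⌊τ P⌋₊ (u P) : ℕ) : ℝ) ≤ τ P := by
    intro P hP
    exact (Nat.cast_le.2 (min_le_left _ _)).trans (Nat.floor_le (h0 P hP))
  have hsb : ∑ P ∈ range m, min ⌊τ P⌋₊ (u P) ≤ T := by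
    have h3 : ((∑ P ∈ range m, min ⌊τ P⌋₊ (u P) : ℕ) : ℝ) ≤ (T : ℝ) := by
      rw [← h1, Nat.cast_sum]
      exact sum_le_sum fun P hP => hbt P (mem_range.1 hP)
    exact_mod_cast h3
  obtain ⟨d, hd1, hd2⟩ := dsn_aux (fun P => min ⌊τ P⌋₊ (u P)) u m T
    (fun P _ => min_le_right _ _) hsb h2
  refine ⟨d, fun P hP => (hd1 P hP).2, hd2, ?_⟩
  have hd2' : ∑ P ∈ range m, (d P : ℝ) = T := by
    rw [← Nat.cast_sum, hd2]
  have h4 : ∀ P ∈ range m, |(d P : ℝ) - τ P| ≤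
      ((d P : ℝ) - τ P) + 2 * (τ P - ((min ⌊τ P⌋₊ (u P) : ℕ) : ℝ)) := by
    intro P hP
    have hP' := mem_range.1 hP
    have h5 : ((min ⌊τ P⌋₊ (u P) : ℕ) : ℝ) ≤ (d P : ℝ) := by
      exact_mod_cast (hd1 P hP').1
    have h6 := hbt P hP'
    rw [abs_le]
    constructor
    · linarith
    · linarith
  have h5 : ∀ P ∈ range m, τ P - ((min ⌊τ P⌋₊ (u P) : ℕ) : ℝ) ≤ 1 + max 0 (τ P - u P) := by
    intro P _
    rcases le_total ⌊τ P⌋₊ (u P) with h | h
    · rw [min_eq_left h]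
      have h6 := (Nat.lt_floor_add_one (τ P)).le
      have h7 := le_max_left (0 : ℝ) (τ P - u P)
      linarith
    · rw [min_eq_right h]
      have h7 := le_max_right (0 : ℝ) (τ P - u P)
      linarith
  calc ∑ P ∈ range m, |(d P : ℝ) - τ P|
      ≤ ∑ P ∈ range m, (((d P : ℝ) - τ P) + 2 * (τ P - ((min ⌊τ P⌋₊ (u P) : ℕ) : ℝ))) :=
        sum_le_sum h4
    _ = 2 * ∑ P ∈ range m, (τ P - ((min ⌊τ P⌋₊ (u P) : ℕ) : ℝ)) := by
        rw [sum_add_distrib, sum_sub_distrib, hd2', h1, mul_sum]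
        ring
    _ ≤ 2 * ∑ P ∈ range m, (1 + max 0 (τ P - u P)) := by
        have h6 := sum_le_sum h5
        linarith
    _ = 2 * (m + ∑ P ∈ range m, max 0 (τ P - u P)) := by
        rw [sum_add_distrib, sum_const, card_range, nsmul_eq_mul, mul_one]

end Pool.Agent.H2.FC
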