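import Mathlib
import Pool.Agent.H2.FC.Defs
import Pool.Agent.H2.FC.Dsn

/-!
SELN: every exceptional vertex `w` (piece `m`) gets a set `N1 w ⊆ Z` of `t - g1 w` of its neighbours, proportionally in the pieces `P < m`. Use the STATEMENT of `dsn` (`FC/Dsn.lean`).

Proof.  `Lo := pt nd m`, `w ∈ Lo`. `D0 := Δ - dgi F Lo w > 0`; `∑_{P < m} dgi F (pt nd P) w = D0` (all `nd v ≤ m`, `dg F w = Δ`), so `∑_{P < m} qq w P = 1`. `dsn m (t - g1 w) τ u` with `τ P := (t - g1 w) qq w P`, `u P := dgi F (pt nd P ∩ Z) w`: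
 * `h2`: `8 ∑ u P + B ≥ ∑ dgi F (pt nd P) w = D0 ≥ Δ - #Lo` (the sum `hgs` has non-negative terms, so its part for this `w` is at most `B`), so `8 ∑ u P ≥ Δ - #Lo - B ≥ Δ / 3 ≥ 8 t`.
 * `τ P ≤ t dgi F (pt nd P) w / (Δ - #Lo) ≤ dgi F (pt nd P) w / 8` (`24 t ≤ Δ`, `48 #Lo ≤ Δ`). So `max 0 (τ P - u P) ≤ (dgi F (pt nd P) w - 8 u P)` (natural subtraction).
It gives `d w P ≤ u P` with sum `t - g1 w`, and `∑_P |d w P - τ P| ≤ 2 m + 2 ∑_P (dgi .. - 8 u P)`. For each `P < m` choose a subset of `{y ∈ pt nd P ∩ Z : F.Adj w y}` with `d w P` elements (`Finset.exists_subset_card_eq`), `N1 w` is their (disjoint) union. Sum over `w ∈ Lo`.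
-/

set_option autoImplicit false

namespace Pool.Agent.H2.FC

open Finset Classical
open Pool.Agent.H71.DN Pool.Agent.H71.HL Pool.Agent.H71.DC

theorem SelN_tot {V : Type} [Fintype V] (F : SimpleGraph V) (nd : V → ℕ) (m : ℕ)
    (hnd : ∀ v, nd v ≤ m) (w : V) :
    ∑ P ∈ range m, dgi F (pt nd P) w + dgi F (pt nd m) w = dg F w := by
  rw [← Finset.sum_range_succ (fun P => dgi F (pt nd P) w)]
  unfold dg
  rw [Finset.card_eq_sum_card_fiberwise (f := nd) (t := range (m + 1))]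
  · refine Finset.sum_congr rfl fun P _ => ?_
    unfold dgi pt
    congr 1
    ext u
    simp only [mem_filter, mem_univ, true_and]
    exact and_comm
  · intro v _
    exact Finset.mem_coe.2 (mem_range.2 (Nat.lt_succ_of_le (hnd v)))

theorem SelN_one {V : Type} [Fintype V] (F : SimpleGraph V) (nd : V → ℕ) (m Δ t B : ℕ)
    (Z : Finset V) (hnd : ∀ v, nd v ≤ m) (hΔ : 0 < Δ) (w : V)
    (hdeg : dg F w = Δ) (h24 : 24 * t ≤ Δ) (hlo : 48 * (pt nd m).card ≤ Δ)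
    (hB : 2 * B ≤ Δ) (T : ℕ) (hT : T ≤ t)
    (hgs : ∑ P ∈ range m, (dgi F (pt nd P) w - 8 * dgi F (pt nd P ∩ Z) w) ≤ B) :
    ∃ N : Finset V, (∀ y ∈ N, y ∈ Z ∧ nd y < m ∧ F.Adj w y) ∧ N.card = T ∧
      ∀ P < m, |((N ∩ pt nd P).card : ℝ) - (T : ℝ) * qq F nd m Δ w P| ≤
        2 * m + 2 * ((∑ P ∈ range m,
          (dgi F (pt nd P) w - 8 * dgi F (pt nd P ∩ Z) w) : ℕ) : ℝ) := by
  have htot := SelN_tot F nd m hnd w
  rw [hdeg] at htot
  have hlw : dgi F (pt nd m) w ≤ (pt nd m).card := Finset.card_filter_le _ _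
  obtain ⟨lo, hlo'⟩ : ∃ lo, lo = dgi F (pt nd m) w := ⟨_, rfl⟩
  have hq : ∀ P, qq F nd m Δ w P = (dgi F (pt nd P) w : ℝ) / ((Δ : ℝ) - lo) := by
    intro P
    unfold qq
    rw [hlo']
  rw [← hlo'] at htot hlw
  have hloR : (48 : ℝ) * lo ≤ Δ := by
    have h1 : 48 * lo ≤ Δ := by omega
    exact_mod_cast h1
  have hΔR : (0 : ℝ) < Δ := by exact_mod_cast hΔ
  have hD0 : (0 : ℝ) < (Δ : ℝ) - lo := by linarith
  have h24R : (24 : ℝ) * t ≤ Δ := by exact_mod_cast h24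
  have hTR : (T : ℝ) ≤ t := by exact_mod_cast hT
  have hT0 : (0 : ℝ) ≤ T := Nat.cast_nonneg _
  obtain ⟨u, hu⟩ : ∃ u : ℕ → ℕ, u = fun P => dgi F (pt nd P ∩ Z) w := ⟨_, rfl⟩
  obtain ⟨a, ha⟩ : ∃ a : ℕ → ℕ, a = fun P => dgi F (pt nd P) w := ⟨_, rfl⟩
  have hgs' : ∑ P ∈ range m, (a P - 8 * u P) ≤ B := by
    rw [ha, hu]
    exact hgs
  have htot' : ∑ P ∈ range m, a P + lo = Δ := by
    rw [ha]
    exact htot
  have haR : ∑ P ∈ range m, (a P : ℝ) = (Δ : ℝ) - lo := by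
    have h1 : ((∑ P ∈ range m, a P + lo : ℕ) : ℝ) = (Δ : ℝ) := by rw [htot']
    push_cast at h1
    linarith
  have hq' : ∀ P, qq F nd m Δ w P = (a P : ℝ) / ((Δ : ℝ) - lo) := by
    intro P
    rw [hq P, ha]
  obtain ⟨d, hd1, hd2, hd3⟩ := dsn m T (fun P => (T : ℝ) * qq F nd m Δ w P) u
    (fun P _ => by
      show 0 ≤ (T : ℝ) * qq F nd m Δ w P
      rw [hq' P]
      positivity)
    (by
      show ∑ P ∈ range m, (T : ℝ) * qq F nd m Δ w P = T
      rw [← Finset.mul_sum, Finset.sum_congr rfl fun P _ => hq' P, ← Finset.sum_div, haR,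
        div_self hD0.ne', mul_one])
    (by
      have h1 : ∑ P ∈ range m, a P ≤ ∑ P ∈ range m, (8 * u P + (a P - 8 * u P)) :=
        Finset.sum_le_sum fun P _ => by omega
      rw [Finset.sum_add_distrib, ← Finset.mul_sum] at h1
      omega)
  -- the sets
  have hex : ∀ P, ∃ C : Finset V, C ⊆ ((pt nd P ∩ Z).filter fun y => F.Adj w y) ∧
      (P < m → C.card = d P) := by
    intro P
    by_cases hP : P < m
    · have h1 : d P ≤ ((pt nd P ∩ Z).filter fun y => F.Adj w y).card := by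
        have h2 := hd1 P hP
        rw [hu] at h2
        exact h2
      obtain ⟨C, hC1, hC2⟩ := Finset.exists_subset_card_eq h1
      exact ⟨C, hC1, fun _ => hC2⟩
    · exact ⟨∅, Finset.empty_subset _, fun h => absurd h hP⟩
  choose C hC1 hC2 using hex
  have hCm : ∀ P, ∀ y ∈ C P, nd y = P ∧ y ∈ Z ∧ F.Adj w y := by
    intro P y hy
    have h1 := hC1 P hy
    rw [mem_filter, mem_inter] at h1
    unfold pt at h1
    rw [mem_filter] at h1
    exact ⟨h1.1.1.2, h1.1.2, h1.2⟩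
  obtain ⟨N, hN⟩ : ∃ N : Finset V, N = (range m).biUnion C := ⟨_, rfl⟩
  have hNP : ∀ P < m, N ∩ pt nd P = C P := by
    intro P hP
    ext y
    rw [mem_inter, hN, mem_biUnion]
    unfold pt
    rw [mem_filter]
    constructor
    · rintro ⟨⟨Q, hQ, hy⟩, _, h1⟩
      have h2 := (hCm Q y hy).1
      rw [h1] at h2
      rw [h2]
      exact hy
    · intro hy
      exact ⟨⟨P, mem_range.2 hP, hy⟩, mem_univ y, (hCm P y hy).1⟩
  refine ⟨N, ?_, ?_, ?_⟩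
  · intro y hy
    rw [hN, mem_biUnion] at hy
    obtain ⟨Q, hQ, hy⟩ := hy
    obtain ⟨h1, h2, h3⟩ := hCm Q y hy
    exact ⟨h2, by rw [h1]; exact mem_range.1 hQ, h3⟩
  · rw [hN, Finset.card_biUnion]
    · rw [← hd2]
      exact Finset.sum_congr rfl fun P hP => hC2 P (mem_range.1 hP)
    · intro P _ Q _ hPQ
      rw [Function.onFun, Finset.disjoint_left]
      intro y h1 h2
      exact hPQ ((hCm P y h1).1.symm.trans (hCm Q y h2).1)
  · intro P hP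
    rw [hNP P hP, hC2 P hP]
    have h1 : |(d P : ℝ) - (T : ℝ) * qq F nd m Δ w P| ≤
        ∑ P ∈ range m, |(d P : ℝ) - (T : ℝ) * qq F nd m Δ w P| :=
      Finset.single_le_sum (f := fun P => |(d P : ℝ) - (T : ℝ) * qq F nd m Δ w P|)
        (fun _ _ => abs_nonneg _) (mem_range.2 hP)
    have h2 : ∑ P ∈ range m, max 0 ((T : ℝ) * qq F nd m Δ w P - u P) ≤
        ((∑ P ∈ range m, (a P - 8 * u P) : ℕ) : ℝ) := by
      rw [Nat.cast_sum]
      refine Finset.sum_le_sum fun P _ => ?_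
      refine max_le (Nat.cast_nonneg _) ?_
      have h3 : (T : ℝ) * qq F nd m Δ w P ≤ (a P : ℝ) / 8 := by
        rw [hq' P, ← mul_div_assoc, div_le_iff₀ hD0]
        have h4 : (0 : ℝ) ≤ a P := Nat.cast_nonneg _
        have h5 : (T : ℝ) ≤ ((Δ : ℝ) - lo) / 8 := by linarith
        calc (T : ℝ) * a P ≤ ((Δ : ℝ) - lo) / 8 * a P := mul_le_mul_of_nonneg_right h5 h4
          _ = (a P : ℝ) / 8 * ((Δ : ℝ) - lo) := by ring
      rcases le_total (8 * u P) (a P) with h6 | h6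
      · rw [Nat.cast_sub h6]
        have h7 : ((8 * u P : ℕ) : ℝ) ≤ a P := by exact_mod_cast h6
        push_cast at h7 ⊢
        linarith
      · have h7 : (a P : ℝ) ≤ ((8 * u P : ℕ) : ℝ) := by exact_mod_cast h6
        have h8 : (0 : ℝ) ≤ ((a P - 8 * u P : ℕ) : ℝ) := Nat.cast_nonneg _
        push_cast at h7
        linarith
    have h3 : (∑ P ∈ range m, (dgi F (pt nd P) w - 8 * dgi F (pt nd P ∩ Z) w)) =
        ∑ P ∈ range m, (a P - 8 * u P) := by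
      rw [ha, hu]
    rw [h3]
    have h4 : ∑ P ∈ range m, |(d P : ℝ) - (T : ℝ) * qq F nd m Δ w P| ≤
        2 * (m + ∑ P ∈ range m, max 0 ((T : ℝ) * qq F nd m Δ w P - u P)) := hd3
    linarith

theorem selN {V : Type} [Fintype V] (F : SimpleGraph V) (nd : V → ℕ) (m Δ t B : ℕ)
    (Z : Finset V) (g1 : V → ℕ) (hnd : ∀ v, nd v ≤ m) (hΔ : 0 < Δ)
    (hdeg : ∀ w ∈ pt nd m, dg F w = Δ) (h24 : 24 * t ≤ Δ) (hlo : 48 * (pt nd m).card ≤ Δ)
    (hB : 2 * B ≤ Δ) (hg : ∀ w ∈ pt nd m, g1 w ≤ t)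
    (hgs : ∑ w ∈ pt nd m, ∑ P ∈ range m,
      (dgi F (pt nd P) w - 8 * dgi F (pt nd P ∩ Z) w) ≤ B) :
    ∃ N1 : V → Finset V, (∀ w ∈ pt nd m, (∀ y ∈ N1 w, y ∈ Z ∧ nd y < m ∧ F.Adj w y) ∧
        (N1 w).card = t - g1 w) ∧
      ∀ P < m, |∑ w ∈ pt nd m, ((N1 w ∩ pt nd P).card : ℝ) -
        ∑ w ∈ pt nd m, ((t - g1 w : ℕ) : ℝ) * qq F nd m Δ w P| ≤
          2 * m * (pt nd m).card + 2 * B := by
  have hone : ∀ w, ∃ N : Finset V, w ∈ pt nd m → (∀ y ∈ N, y ∈ Z ∧ nd y < m ∧ F.Adj w y) ∧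
      N.card = t - g1 w ∧
      ∀ P < m, |((N ∩ pt nd P).card : ℝ) - ((t - g1 w : ℕ) : ℝ) * qq F nd m Δ w P| ≤
        2 * m + 2 * ((∑ P ∈ range m,
          (dgi F (pt nd P) w - 8 * dgi F (pt nd P ∩ Z) w) : ℕ) : ℝ) := by
    intro w
    by_cases hw : w ∈ pt nd m
    · obtain ⟨N, h1, h2, h3⟩ := SelN_one F nd m Δ t B Z hnd hΔ w (hdeg w hw) h24 hlo hB
        (t - g1 w) (Nat.sub_le _ _) (le_trans (Finset.single_le_sum
          (f := fun w => ∑ P ∈ range m, (dgi F (pt nd P) w - 8 * dgi F (pt nd P ∩ Z) w))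
          (fun _ _ => Nat.zero_le _) hw) hgs)
      exact ⟨N, fun _ => ⟨h1, h2, h3⟩⟩
    · exact ⟨∅, fun h => absurd h hw⟩
  choose N1 hN1 using hone
  refine ⟨N1, fun w hw => ⟨(hN1 w hw).1, (hN1 w hw).2.1⟩, fun P hP => ?_⟩
  rw [← Finset.sum_sub_distrib]
  refine (Finset.abs_sum_le_sum_abs _ _).trans ?_
  refine (Finset.sum_le_sum fun w hw => (hN1 w hw).2.2 P hP).trans ?_
  rw [Finset.sum_add_distrib, Finset.sum_const, nsmul_eq_mul, ← Finset.mul_sum, ← Nat.cast_sum]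
  have h1 : ((∑ w ∈ pt nd m, ∑ P ∈ range m,
      (dgi F (pt nd P) w - 8 * dgi F (pt nd P ∩ Z) w) : ℕ) : ℝ) ≤ B := by exact_mod_cast hgs
  have h2 : (((pt nd m).card : ℕ) : ℝ) * (2 * m) = 2 * m * (pt nd m).card := by ring
  linarith

end Pool.Agent.H2.FC
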