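import Mathlib
import Pool.Agent.H2.FC.SelN
import Pool.Agent.H2.FC.SelY

/-!
SEL: the graph `F1` for one group of `t` labels, whose edges inside the exceptional piece `m` are those of a given graph `E1`. Use the STATEMENTS of `selN, selY`.

Proof.  `Lo := pt nd m`, `g1 w := dg E1 w` (`≤ #Lo ≤ t`), `θ := t / Δ ≤ 1 / 24`. `selN` gives `N1`, `selY` gives `EY` (`B` as a real number). `F1.Adj a b := E1.Adj a b ∨ (a ∈ Lo ∧ b ∈ N1 a) ∨ (b ∈ Lo ∧ a ∈ N1 b) ∨ EY.Adj a b`. The elements of `N1 a` and the ends of edges of `EY` are in pieces `< m`, so the four kinds of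
pairs are disjoint. `dg F1 w = g1 w + #(N1 w) = t` for `w ∈ Lo`. For `P < m`: `∑_{v ∈ pt nd P} dg F1 v = ∑_{w ∈ Lo} #(N1 w ∩ pt nd P) + ∑_{v ∈ pt nd P} dg EY v` and `∑_{v ∈ pt nd P} dg F v = ∑_{w ∈ Lo} dgi F (pt nd P) w + ∑_{v ∈ pt nd P} dgi F {nd < m} v` (double counting of the edges between `Lo` and the piece).
`∑_w (t - g1 w) qq w P = t ∑_w qq w P - ∑_w g1 w qq w P`, by `hE1` this is `t ∑_w qq w P - θ ∑_w dgi F Lo w qq w P ± 4 #Lo = θ ∑_w (Δ - dgi F Lo w) qq w P ± 4 #Lo = θ ∑_w dgi F (pt nd P) w ± 4 #Lo` (`Δ - dgi F Lo w > 0`). Add the three errors.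
-/

set_option autoImplicit false

namespace Pool.Agent.H2.FC

open Finset Classical
open Pool.Agent.H71.DN Pool.Agent.H71.HL Pool.Agent.H71.DC

private theorem mem_pt' {V : Type} [Fintype V] {nd : V → ℕ} {i : ℕ} {v : V} :
    v ∈ pt nd i ↔ nd v = i := by
  simp [pt]

private theorem dc {V : Type} (A C : Finset V) (R : V → V → Prop)
    [∀ w v, Decidable (R w v)] :
    ∑ v ∈ A, (C.filter fun w => R w v).card = ∑ w ∈ C, (A.filter fun v => R w v).card := by
  simp only [Finset.card_filter]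
  exact Finset.sum_comm

theorem sel {V : Type} [Fintype V] (F E1 : SimpleGraph V) (nd : V → ℕ) (m Δ t B : ℕ)
    (Z : Finset V) (hnd : ∀ v, nd v ≤ m) (hΔ : 0 < Δ)
    (hdeg : ∀ w ∈ pt nd m, dg F w = Δ) (h24 : 24 * t ≤ Δ) (hlo : 48 * (pt nd m).card ≤ Δ)
    (hlt : (pt nd m).card ≤ t) (hB : 2 * B ≤ Δ)
    (hgs : ∑ w ∈ pt nd m, ∑ P ∈ range m,
      (dgi F (pt nd P) w - 8 * dgi F (pt nd P ∩ Z) w) ≤ B)
    (hgs2 : ∀ P < m, ∀ P' < m, (ee F (pt nd P) (pt nd P') : ℝ) ≤
      16 * ee F (pt nd P ∩ Z) (pt nd P' ∩ Z) + B)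
    (hE : ∀ a b, E1.Adj a b → F.Adj a b ∧ a ∈ pt nd m ∧ b ∈ pt nd m)
    (hE1 : ∀ P < m, |∑ w ∈ pt nd m, (dg E1 w : ℝ) * qq F nd m Δ w P -
      (t : ℝ) / Δ * ∑ w ∈ pt nd m, (dgi F (pt nd m) w : ℝ) * qq F nd m Δ w P| ≤
        4 * (pt nd m).card) :
    ∃ F1 : SimpleGraph V, F1 ≤ F ∧
      (∀ a b, F1.Adj a b → (a ∈ Z ∧ nd a < m) ∨ nd a = m) ∧
      (∀ a b, nd a = m → nd b = m → (F1.Adj a b ↔ E1.Adj a b)) ∧
      (∀ w ∈ pt nd m, dg F1 w = t) ∧
      ∀ P < m, |∑ v ∈ pt nd P, (dg F1 v : ℝ) - (t : ℝ) / Δ * ∑ v ∈ pt nd P, (dg F v : ℝ)| ≤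
        (2 * m + 4) * (pt nd m).card + 2 * B + m * (2 + B) := by
  have hg : ∀ w ∈ pt nd m, dg E1 w ≤ t := by
    intro w _
    refine le_trans (Finset.card_le_card ?_) hlt
    intro u hu
    rw [mem_filter] at hu
    exact (hE w u hu.2).2.2
  obtain ⟨N1, hN, hNs⟩ := selN F nd m Δ t B Z (fun w => dg E1 w) hnd hΔ hdeg h24 hlo hB hg hgs
  have hΔR : (0 : ℝ) < Δ := by exact_mod_cast hΔ
  have hθ0 : (0 : ℝ) ≤ (t : ℝ) / Δ := by positivity
  have hθ1 : (t : ℝ) / Δ ≤ 1 / 24 := by
    rw [div_le_div_iff₀ hΔR (by norm_num)]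
    have : (24 * t : ℝ) ≤ Δ := by exact_mod_cast h24
    linarith
  obtain ⟨EY, hY, hYs⟩ := selY F nd m Z ((t : ℝ) / Δ) (B : ℝ) hθ0 hθ1 (Nat.cast_nonneg B) hgs2
  obtain ⟨F1, hF1⟩ : ∃ F1 : SimpleGraph V, ∀ a b, F1.Adj a b ↔
      (E1.Adj a b ∨ (a ∈ pt nd m ∧ b ∈ N1 a) ∨ (b ∈ pt nd m ∧ a ∈ N1 b) ∨ EY.Adj a b) := ⟨
    { Adj := fun a b => E1.Adj a b ∨ (a ∈ pt nd m ∧ b ∈ N1 a) ∨ (b ∈ pt nd m ∧ a ∈ N1 b) ∨ EY.Adj a b
      symm := ⟨fun a b h => by
        rcases h with h | h | h | h
        · exact Or.inl h.symm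
        · exact Or.inr (Or.inr (Or.inl h))
        · exact Or.inr (Or.inl h)
        · exact Or.inr (Or.inr (Or.inr h.symm))⟩
      loopless := ⟨fun a h => by
        rcases h with h | h | h | h
        · exact E1.irrefl h
        · have h1 := ((hN a h.1).1 a h.2).2.1
          have h2 := mem_pt'.1 h.1
          omega
        · have h1 := ((hN a h.1).1 a h.2).2.1
          have h2 := mem_pt'.1 h.1
          omega
        · exact EY.irrefl h⟩ }, fun _ _ => Iff.rfl⟩
  refine ⟨F1, ?_, ?_, ?_, ?_, ?_⟩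
  · intro a b h
    rw [hF1] at h
    rcases h with h | h | h | h
    · exact (hE a b h).1
    · exact ((hN a h.1).1 b h.2).2.2
    · exact ((hN b h.1).1 a h.2).2.2.symm
    · exact (hY a b h).1
  · intro a b h
    rw [hF1] at h
    rcases h with h | h | h | h
    · exact Or.inr (mem_pt'.1 (hE a b h).2.1)
    · exact Or.inr (mem_pt'.1 h.1)
    · exact Or.inl ⟨((hN b h.1).1 a h.2).1, ((hN b h.1).1 a h.2).2.1⟩
    · exact Or.inl ⟨(hY a b h).2.1, (hY a b h).2.2.2.1⟩
  · intro a b ha hb
    rw [hF1]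
    constructor
    · intro h
      rcases h with h | h | h | h
      · exact h
      · have h1 := ((hN a h.1).1 b h.2).2.1
        omega
      · have h1 := ((hN b h.1).1 a h.2).2.1
        omega
      · have h1 := (hY a b h).2.2.2.1
        omega
    · exact fun h => Or.inl h
  · intro w hw
    have hw' := mem_pt'.1 hw
    have e1 : (univ.filter fun u => F1.Adj w u) = (univ.filter fun u => E1.Adj w u) ∪ N1 w := by
      ext u
      simp only [mem_filter, mem_univ, true_and, mem_union]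
      rw [hF1]
      constructor
      · intro h
        rcases h with h | h | h | h
        · exact Or.inl h
        · exact Or.inr h.2
        · have h1 := ((hN u h.1).1 w h.2).2.1
          omega
        · have h1 := (hY w u h).2.2.2.1
          omega
      · intro h
        rcases h with h | h
        · exact Or.inl h
        · exact Or.inr (Or.inl ⟨hw, h⟩)
    have e2 : Disjoint (univ.filter fun u => E1.Adj w u) (N1 w) := by
      rw [Finset.disjoint_left]
      intro u hu hu'
      rw [mem_filter] at hu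
      have h1 := mem_pt'.1 (hE w u hu.2).2.2
      have h2 := ((hN w hw).1 u hu').2.1
      omega
    have e3 := hg w hw
    have e4 := (hN w hw).2
    unfold dg at e3 e4 ⊢
    rw [e1, card_union_of_disjoint e2, e4]
    omega
  · intro P hP
    have hU : ∀ v, dg F v = dgi F (pt nd m) v + dgi F (univ.filter fun u => nd u < m) v := by
      intro v
      unfold dg dgi
      rw [← card_union_of_disjoint]
      · congr 1
        ext u
        simp only [mem_filter, mem_univ, true_and, mem_union, mem_pt']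
        constructor
        · intro h
          rcases (hnd u).lt_or_eq with h1 | h1
          · exact Or.inr ⟨h1, h⟩
          · exact Or.inl ⟨h1, h⟩
        · intro h
          rcases h with h | h
          · exact h.2
          · exact h.2
      · rw [Finset.disjoint_left]
        intro u hu hu'
        simp only [mem_filter, mem_univ, true_and, mem_pt'] at hu hu'
        omega
    have hV : ∀ v ∈ pt nd P, dg F1 v = ((pt nd m).filter fun w => v ∈ N1 w).card + dg EY v := by
      intro v hv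
      have hv' := mem_pt'.1 hv
      unfold dg
      rw [← card_union_of_disjoint]
      · congr 1
        ext u
        simp only [mem_filter, mem_univ, true_and, mem_union]
        rw [hF1]
        constructor
        · intro h
          rcases h with h | h | h | h
          · have h1 := mem_pt'.1 (hE v u h).2.1
            omega
          · have h1 := mem_pt'.1 h.1
            omega
          · exact Or.inl h
          · exact Or.inr h
        · intro h
          rcases h with h | h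
          · exact Or.inr (Or.inr (Or.inl h))
          · exact Or.inr (Or.inr (Or.inr h))
      · rw [Finset.disjoint_left]
        intro u hu hu'
        simp only [mem_filter, mem_univ, true_and, mem_pt'] at hu hu'
        have h1 := (hY v u hu').2.2.2.2
        omega
    have s1 : ∑ v ∈ pt nd P, (dg F1 v : ℝ) = ∑ w ∈ pt nd m, ((N1 w ∩ pt nd P).card : ℝ) +
        ∑ v ∈ pt nd P, (dg EY v : ℝ) := by
      have h1 : ∑ v ∈ pt nd P, dg F1 v = ∑ w ∈ pt nd m, (N1 w ∩ pt nd P).card +
          ∑ v ∈ pt nd P, dg EY v := by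
        rw [Finset.sum_congr rfl hV, Finset.sum_add_distrib]
        congr 1
        rw [dc (pt nd P) (pt nd m) (fun w v => v ∈ N1 w)]
        refine Finset.sum_congr rfl fun w _ => ?_
        congr 1
        ext v
        simp only [mem_filter, mem_inter]
        tauto
      exact_mod_cast h1
    have s2 : ∑ v ∈ pt nd P, (dg F v : ℝ) = ∑ w ∈ pt nd m, (dgi F (pt nd P) w : ℝ) +
        ∑ v ∈ pt nd P, (dgi F (univ.filter fun u => nd u < m) v : ℝ) := by
      have h1 : ∑ v ∈ pt nd P, dg F v = ∑ w ∈ pt nd m, dgi F (pt nd P) w +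
          ∑ v ∈ pt nd P, dgi F (univ.filter fun u => nd u < m) v := by
        rw [Finset.sum_congr rfl (fun v _ => hU v), Finset.sum_add_distrib]
        congr 1
        unfold dgi
        rw [dc (pt nd P) (pt nd m) (fun w v => F.Adj v w)]
        refine Finset.sum_congr rfl fun w _ => ?_
        congr 1
        ext v
        simp only [mem_filter]
        exact and_congr_right fun _ => ⟨fun h => h.symm, fun h => h.symm⟩
      exact_mod_cast h1
    have hpos : ∀ w ∈ pt nd m, (0 : ℝ) < (Δ : ℝ) - dgi F (pt nd m) w := by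
      intro w hw
      have h1 : dgi F (pt nd m) w ≤ (pt nd m).card := card_filter_le _ _
      have h2 : 0 < (pt nd m).card := card_pos.2 ⟨w, hw⟩
      have h3 : dgi F (pt nd m) w < Δ := by omega
      have h4 : (dgi F (pt nd m) w : ℝ) < Δ := by exact_mod_cast h3
      linarith
    have s3 : (t : ℝ) / Δ * ∑ w ∈ pt nd m, (dgi F (pt nd P) w : ℝ) =
        ∑ w ∈ pt nd m, ((t - dg E1 w : ℕ) : ℝ) * qq F nd m Δ w P +
        (∑ w ∈ pt nd m, (dg E1 w : ℝ) * qq F nd m Δ w P -
          (t : ℝ) / Δ * ∑ w ∈ pt nd m, (dgi F (pt nd m) w : ℝ) * qq F nd m Δ w P) := by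
      rw [Finset.mul_sum, Finset.mul_sum, ← Finset.sum_sub_distrib, ← Finset.sum_add_distrib]
      refine Finset.sum_congr rfl fun w hw => ?_
      rw [Nat.cast_sub (hg w hw)]
      have h1 : (dgi F (pt nd P) w : ℝ) = ((Δ : ℝ) - dgi F (pt nd m) w) * qq F nd m Δ w P := by
        unfold qq
        rw [mul_div_cancel₀ _ (hpos w hw).ne']
      rw [h1]
      field_simp
      ring
    have a1 := hNs P hP
    have a2 := hYs P hP
    have a3 := hE1 P hP
    rw [s1, s2, mul_add, s3]
    rw [abs_le] at a1 a2 a3 ⊢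
    constructor <;> linarith [a1.1, a1.2, a2.1, a2.2, a3.1, a3.2]

end Pool.Agent.H2.FC
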