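import Mathlib
import Pool.Agent.H71.TD.Ifc
import Pool.Agent.H2.FC.Grd2
import Pool.Agent.H2.FC.Sel

/-!
DES: the two graphs `F1, F2` for the two groups of `t` labels. Use the STATEMENTS of `grd2` (`FC/Grd2.lean`) and `sel` (`FC/Sel.lean`).

Proof.  `Lo := pt nd m`. `q := qq F nd m Δ`: `0 ≤ q v P` for all `v, P` (`dgi F Lo v ≤ #Lo ≤ Δ`), and for `v ∈ Lo`: `∑_{P < m} dgi F (pt nd P) v = dg F v - dgi F Lo v = Δ - dgi F Lo v` (all `nd u ≤ m`), so `∑_{P < m} q v P = 1` (or `0` if the denominator is `0`) `≤ 1`. `grd2 F Lo m q .. (t / Δ)` (`t / Δ ≤ 1 / 24 ≤ 1 / 2`) gives `E1, E2`.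
`sel` with `Z := {v : 2 ≤ qt v}` and `E1` gives `F1`, `sel` with `Z := {v : qt v < 2}` and `E2` gives `F2` (`pt nd P ∩ Z = (pt nd P).filter ..`; `hgs` of `sel`: each of the two sums of `hgs` is at most `B`). If `F1.Adj a b` and `F2.Adj a b` then `nd a = m` (otherwise `2 ≤ qt a` and `qt a < 2`), also `nd b = m` (symmetry), so
`E1.Adj a b`, `E2.Adj a b`, a contradiction.
-/

set_option autoImplicit false

namespace Pool.Agent.H2.FC

open Finset Classical
open Pool.Agent.H71.DN Pool.Agent.H71.HL Pool.Agent.H71.DC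

private theorem des_sum {V : Type} [Fintype V] (F : SimpleGraph V) (nd : V → ℕ) (m : ℕ)
    (hnd : ∀ v, nd v ≤ m) (v : V) :
    ∑ P ∈ range m, dgi F (pt nd P) v + dgi F (pt nd m) v = dg F v := by
  rw [← Finset.sum_range_succ]
  unfold dg
  rw [Finset.card_eq_sum_card_fiberwise (f := nd) (t := range (m + 1))
    (fun a _ => by
      rw [Finset.mem_coe, mem_range]
      exact Nat.lt_succ_of_le (hnd a))]
  apply Finset.sum_congr rfl
  intro P _
  unfold dgi pt
  apply congrArg Finset.card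
  ext a
  simp only [mem_filter, mem_univ, true_and]
  exact and_comm

theorem des {V : Type} [Fintype V] (F : SimpleGraph V) (nd qt : V → ℕ) (m Δ t B : ℕ)
    (hnd : ∀ v, nd v ≤ m) (hΔ : 0 < Δ) (hdeg : ∀ w ∈ pt nd m, dg F w = Δ) (h24 : 24 * t ≤ Δ)
    (hlo : 48 * (pt nd m).card ≤ Δ) (hlt : (pt nd m).card ≤ t) (hB : 2 * B ≤ Δ)
    (hgs : ∑ w ∈ pt nd m, ∑ P ∈ range m,
      ((dgi F (pt nd P) w - 8 * dgi F ((pt nd P).filter fun v => qt v < 2) w) +
        (dgi F (pt nd P) w - 8 * dgi F ((pt nd P).filter fun v => 2 ≤ qt v) w)) ≤ B)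
    (hgs2 : ∀ P < m, ∀ P' < m,
      (ee F (pt nd P) (pt nd P') : ℝ) ≤ 16 * ee F ((pt nd P).filter fun v => qt v < 2)
        ((pt nd P').filter fun v => qt v < 2) + B ∧
      (ee F (pt nd P) (pt nd P') : ℝ) ≤ 16 * ee F ((pt nd P).filter fun v => 2 ≤ qt v)
        ((pt nd P').filter fun v => 2 ≤ qt v) + B) :
    ∃ F1 F2 : SimpleGraph V, F1 ≤ F ∧ F2 ≤ F ∧ (∀ a b, F1.Adj a b → ¬ F2.Adj a b) ∧
      (∀ a b, F1.Adj a b → 2 ≤ qt a ∨ nd a = m) ∧ (∀ a b, F2.Adj a b → qt a < 2 ∨ nd a = m) ∧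
      (∀ w ∈ pt nd m, dg F1 w = t ∧ dg F2 w = t) ∧
      ∀ P < m,
        |∑ v ∈ pt nd P, (dg F1 v : ℝ) - (t : ℝ) / Δ * ∑ v ∈ pt nd P, (dg F v : ℝ)| ≤
          (2 * m + 4) * (pt nd m).card + 2 * B + m * (2 + B) ∧
        |∑ v ∈ pt nd P, (dg F2 v : ℝ) - (t : ℝ) / Δ * ∑ v ∈ pt nd P, (dg F v : ℝ)| ≤
          (2 * m + 4) * (pt nd m).card + 2 * B + m * (2 + B) := by
  have hle : ∀ v, dgi F (pt nd m) v ≤ (pt nd m).card := fun v => card_filter_le _ _
  have hΔR : (0:ℝ) < Δ := by exact_mod_cast hΔ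
  have hlt' : ∀ v, (dgi F (pt nd m) v : ℝ) < Δ := by
    intro v
    have h1 := hle v
    have h2 : dgi F (pt nd m) v < Δ := by omega
    exact_mod_cast h2
  have hq0 : ∀ v P, 0 ≤ qq F nd m Δ v P := by
    intro v P
    exact div_nonneg (Nat.cast_nonneg _) (by linarith [hlt' v])
  have hq1 : ∀ v ∈ pt nd m, ∑ P ∈ range m, qq F nd m Δ v P ≤ 1 := by
    intro v hv
    unfold qq
    rw [← Finset.sum_div, div_le_one (by linarith [hlt' v])]
    have h1 := des_sum F nd m hnd v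
    rw [hdeg v hv] at h1
    have h2 : (∑ P ∈ range m, (dgi F (pt nd P) v : ℝ)) + dgi F (pt nd m) v = Δ := by
      exact_mod_cast h1
    linarith
  have hth : (t : ℝ) / Δ ≤ 1 / 2 := by
    rw [div_le_iff₀ hΔR]
    have h1 : (24 : ℝ) * t ≤ Δ := by exact_mod_cast h24
    have h2 : (0 : ℝ) ≤ t := Nat.cast_nonneg _
    linarith
  obtain ⟨E1, E2, hE1, hE2, hdis, hs1, hs2⟩ := grd2 F (pt nd m) m (qq F nd m Δ) hq0 hq1
    ((t : ℝ) / Δ) (by positivity) hth
  have hZ1 : ∀ P, pt nd P ∩ (univ.filter fun v => 2 ≤ qt v) =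
      (pt nd P).filter fun v => 2 ≤ qt v := by
    intro P
    ext a
    simp only [mem_inter, mem_filter, mem_univ, true_and]
  have hZ2 : ∀ P, pt nd P ∩ (univ.filter fun v => qt v < 2) =
      (pt nd P).filter fun v => qt v < 2 := by
    intro P
    ext a
    simp only [mem_inter, mem_filter, mem_univ, true_and]
  obtain ⟨F1, hF1, hZF1, hEF1, hd1, hr1⟩ := sel F E1 nd m Δ t B
    (univ.filter fun v => 2 ≤ qt v) hnd hΔ hdeg h24 hlo hlt hB
    (by
      refine le_trans ?_ hgs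
      apply Finset.sum_le_sum
      intro w _
      apply Finset.sum_le_sum
      intro P _
      rw [hZ1]
      exact Nat.le_add_left _ _)
    (by
      intro P hP P' hP'
      rw [hZ1, hZ1]
      exact (hgs2 P hP P' hP').2) hE1 hs1
  obtain ⟨F2, hF2, hZF2, hEF2, hd2, hr2⟩ := sel F E2 nd m Δ t B
    (univ.filter fun v => qt v < 2) hnd hΔ hdeg h24 hlo hlt hB
    (by
      refine le_trans ?_ hgs
      apply Finset.sum_le_sum
      intro w _
      apply Finset.sum_le_sum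
      intro P _
      rw [hZ2]
      exact Nat.le_add_right _ _)
    (by
      intro P hP P' hP'
      rw [hZ2, hZ2]
      exact (hgs2 P hP P' hP').1) hE2 hs2
  have hz1 : ∀ a b, F1.Adj a b → 2 ≤ qt a ∨ nd a = m := by
    intro a b hab
    rcases hZF1 a b hab with h | h
    · left
      have := h.1
      rw [mem_filter] at this
      exact this.2
    · exact Or.inr h
  have hz2 : ∀ a b, F2.Adj a b → qt a < 2 ∨ nd a = m := by
    intro a b hab
    rcases hZF2 a b hab with h | h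
    · left
      have := h.1
      rw [mem_filter] at this
      exact this.2
    · exact Or.inr h
  refine ⟨F1, F2, hF1, hF2, ?_, hz1, hz2, fun w hw => ⟨hd1 w hw, hd2 w hw⟩,
    fun P hP => ⟨hr1 P hP, hr2 P hP⟩⟩
  intro a b h1 h2
  have ha : nd a = m := by
    rcases hz1 a b h1 with h3 | h3
    · rcases hz2 a b h2 with h4 | h4
      · omega
      · exact h4
    · exact h3
  have hb : nd b = m := by
    rcases hz1 b a h1.symm with h3 | h3
    · rcases hz2 b a h2.symm with h4 | h4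
      · omega
      · exact h4
    · exact h3
  exact hdis a b ((hEF1 a b ha hb).mp h1) ((hEF2 a b ha hb).mp h2)

end Pool.Agent.H2.FC
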