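import Mathlib
import Pool.Agent.H71.TD.Ifc

/-!
FGS: the degrees of the graph of the defect edges.

Proof.  Let `F := Fg G k ty nd`. For every `v`: the `G`-neighbours of `v` are the disjoint union of the neighbours in `Hg` and in `F`.
`fg_dgi`: an edge at `w` with `nd w = 2 k` is not in `Hg`. `fg_lo`: `fg_dgi` with `S = univ` and `reg`.
`fg_hi`: let `nd v < 2 k`, `i := nd v / 2 < k`. If `ty i`: `nd v = 2 i` (the piece `2 i + 1` is empty, `e1`) and the `Hg`-neighbours of `v` contain `{u ∈ pt nd (2 i) : G.Adj v u}`, so `dg F v ≤ Δ - dgi G (pt nd (2 i)) v ≤ ξ n` (`e2`). If `¬ ty i` and `nd v = 2 i` the same with `pt nd (2 i + 1)` (`b2`), and if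
`nd v = 2 i + 1` with `pt nd (2 i)` (`b3`).
`fg_bal`: `¬ ty i`: for `v ∈ pt nd (2 i)` the `Hg`-neighbours of `v` are exactly `{u ∈ pt nd (2 i + 1) : G.Adj v u}`, so `dg F v + dgi G (pt nd (2 i + 1)) v = Δ`; the same with `2 i`, `2 i + 1` exchanged. Sum over the pieces: `#pt nd (2 i) = #pt nd (2 i + 1)` (`b1`), and `∑_{v ∈ A} dgi G B v = ∑_{v ∈ B} dgi G A v` (double counting, `Finset.sum_comm`).
-/

set_option autoImplicit false

namespace Pool.Agent.H2.FC

open Finset Classical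
open Pool.Agent.H71.DN Pool.Agent.H71.HL Pool.Agent.H71.DC Pool.Agent.H71.TD

theorem fg_dgi {V : Type} [Fintype V] (G : SimpleGraph V) (k : ℕ) (ty : ℕ → Prop) (nd : V → ℕ)
    (w : V) (hw : w ∈ pt nd (2 * k)) (S : Finset V) : dgi (Fg G k ty nd) S w = dgi G S w := by
  unfold dgi
  congr 1
  apply filter_congr
  intro u _
  have hw2 : nd w = 2 * k := (mem_filter.mp hw).2
  constructor
  · intro h
    exact h.1
  · intro h
    refine ⟨h, fun h2 => ?_⟩
    have h3 := h2.2.1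
    omega

theorem fg_lo {V : Type} [Fintype V] (G : SimpleGraph V) (Δ : ℕ) (c x ξ ζ f : ℝ) (k : ℕ)
    (ty : ℕ → Prop) (nd : V → ℕ) (sf : ℕ → Finset V) (hS : Str G Δ c x ξ ζ f k ty nd sf)
    (w : V) (hw : w ∈ pt nd (2 * k)) : dg (Fg G k ty nd) w = Δ := by
  rw [← hS.reg w]
  exact fg_dgi G k ty nd w hw univ

theorem Fgs_split {V : Type} [Fintype V] (G : SimpleGraph V) (k : ℕ) (ty : ℕ → Prop)
    (nd : V → ℕ) (v : V) : dg (Fg G k ty nd) v + dg (Hg G k ty nd) v = dg G v := by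
  unfold dg
  rw [← card_union_of_disjoint]
  · congr 1
    ext u
    rw [mem_union, mem_filter, mem_filter, mem_filter]
    constructor
    · rintro (h | h)
      · exact ⟨mem_univ _, h.2.1⟩
      · exact ⟨mem_univ _, h.2.1⟩
    · intro h
      by_cases h2 : (Hg G k ty nd).Adj v u
      · exact Or.inr ⟨mem_univ _, h2⟩
      · exact Or.inl ⟨mem_univ _, h.2, h2⟩
  · rw [disjoint_left]
    intro u h1 h2
    exact (mem_filter.mp h1).2.2 (mem_filter.mp h2).2

theorem Fgs_le {V : Type} [Fintype V] (G : SimpleGraph V) (k : ℕ) (ty : ℕ → Prop)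
    (nd : V → ℕ) (v : V) (S : Finset V) (h : ∀ u ∈ S, G.Adj v u → (Hg G k ty nd).Adj v u) :
    dgi G S v ≤ dg (Hg G k ty nd) v := by
  unfold dg dgi
  apply card_le_card
  intro u hu
  rw [mem_filter] at hu ⊢
  exact ⟨mem_univ _, h u hu.1 hu.2⟩

theorem Fgs_fin {V : Type} [Fintype V] (G : SimpleGraph V) (Δ : ℕ) (c x ξ ζ f : ℝ) (k : ℕ)
    (ty : ℕ → Prop) (nd : V → ℕ) (sf : ℕ → Finset V) (hS : Str G Δ c x ξ ζ f k ty nd sf)
    (v : V) (S : Finset V) (h : ∀ u ∈ S, G.Adj v u → (Hg G k ty nd).Adj v u)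
    (h2 : (Δ : ℝ) ≤ dgi G S v + ξ * Fintype.card V) :
    (dg (Fg G k ty nd) v : ℝ) ≤ ξ * Fintype.card V := by
  have h3 := Fgs_split G k ty nd v
  rw [hS.reg v] at h3
  have h4 := Fgs_le G k ty nd v S h
  have h3' : (dg (Fg G k ty nd) v : ℝ) + dg (Hg G k ty nd) v = Δ := by exact_mod_cast h3
  have h4' : (dgi G S v : ℝ) ≤ dg (Hg G k ty nd) v := by exact_mod_cast h4
  linarith

theorem fg_hi {V : Type} [Fintype V] (G : SimpleGraph V) (Δ : ℕ) (c x ξ ζ f : ℝ) (k : ℕ)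
    (ty : ℕ → Prop) (nd : V → ℕ) (sf : ℕ → Finset V) (hS : Str G Δ c x ξ ζ f k ty nd sf)
    (v : V) (hv : nd v < 2 * k) : (dg (Fg G k ty nd) v : ℝ) ≤ ξ * Fintype.card V := by
  obtain ⟨i, hi⟩ : ∃ i, i = nd v / 2 := ⟨_, rfl⟩
  have hik : i < k := by omega
  have hcase : nd v = 2 * i ∨ nd v = 2 * i + 1 := by omega
  by_cases hty : ty i
  · rcases hcase with hc | hc
    · have hmem : v ∈ pt nd (2 * i) := mem_filter.mpr ⟨mem_univ _, hc⟩
      refine Fgs_fin G Δ c x ξ ζ f k ty nd sf hS v (pt nd (2 * i)) ?_ (hS.e2 i hik hty v hmem)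
      intro u hu hadj
      have hu2 : nd u = 2 * i := (mem_filter.mp hu).2
      refine ⟨hadj, hv, by omega, by omega, Or.inl ?_⟩
      rw [← hi]
      exact hty
    · have hmem : v ∈ pt nd (2 * i + 1) := mem_filter.mpr ⟨mem_univ _, hc⟩
      rw [(hS.e1 i hik hty).1] at hmem
      exact absurd hmem (notMem_empty v)
  · rcases hcase with hc | hc
    · have hmem : v ∈ pt nd (2 * i) := mem_filter.mpr ⟨mem_univ _, hc⟩
      refine Fgs_fin G Δ c x ξ ζ f k ty nd sf hS v (pt nd (2 * i + 1)) ?_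
        (hS.b2 i hik hty v hmem)
      intro u hu hadj
      have hu2 : nd u = 2 * i + 1 := (mem_filter.mp hu).2
      exact ⟨hadj, hv, by omega, by omega, Or.inr (by omega)⟩
    · have hmem : v ∈ pt nd (2 * i + 1) := mem_filter.mpr ⟨mem_univ _, hc⟩
      refine Fgs_fin G Δ c x ξ ζ f k ty nd sf hS v (pt nd (2 * i)) ?_
        (hS.b3 i hik hty v hmem)
      intro u hu hadj
      have hu2 : nd u = 2 * i := (mem_filter.mp hu).2
      exact ⟨hadj, hv, by omega, by omega, Or.inr (by omega)⟩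

theorem Fgs_eq {V : Type} [Fintype V] (G : SimpleGraph V) (k : ℕ) (ty : ℕ → Prop)
    (nd : V → ℕ) (i a b : ℕ) (hi : i < k) (hty : ¬ ty i)
    (hab : (a = 2 * i ∧ b = 2 * i + 1) ∨ (a = 2 * i + 1 ∧ b = 2 * i)) (v : V)
    (hv : nd v = a) : dg (Hg G k ty nd) v = dgi G (pt nd b) v := by
  unfold dg dgi
  congr 1
  ext u
  unfold pt
  rw [mem_filter, mem_filter, mem_filter]
  constructor
  · rintro ⟨-, h1, h2, h3, h4, h5⟩
    refine ⟨⟨mem_univ _, ?_⟩, h1⟩
    rcases h5 with h5 | h5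
    · exfalso
      apply hty
      have : nd v / 2 = i := by omega
      rw [← this]
      exact h5
    · omega
  · rintro ⟨⟨-, h1⟩, h2⟩
    exact ⟨mem_univ _, h2, by omega, by omega, by omega, Or.inr (by omega)⟩

theorem Fgs_dc {V : Type} (G : SimpleGraph V) (A B : Finset V) :
    ∑ v ∈ A, dgi G B v = ∑ v ∈ B, dgi G A v := by
  unfold dgi
  simp only [card_filter]
  rw [sum_comm]
  apply sum_congr rfl
  intro u _
  apply sum_congr rfl
  intro v _
  simp only [G.adj_comm]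

theorem fg_bal {V : Type} [Fintype V] (G : SimpleGraph V) (Δ : ℕ) (c x ξ ζ f : ℝ) (k : ℕ)
    (ty : ℕ → Prop) (nd : V → ℕ) (sf : ℕ → Finset V) (hS : Str G Δ c x ξ ζ f k ty nd sf)
    (i : ℕ) (hi : i < k) (hty : ¬ ty i) :
    ∑ v ∈ pt nd (2 * i), dg (Fg G k ty nd) v = ∑ v ∈ pt nd (2 * i + 1), dg (Fg G k ty nd) v := by
  have key : ∀ a b : ℕ, ((a = 2 * i ∧ b = 2 * i + 1) ∨ (a = 2 * i + 1 ∧ b = 2 * i)) →
      ∑ v ∈ pt nd a, dg (Fg G k ty nd) v + ∑ v ∈ pt nd a, dgi G (pt nd b) v =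
        (pt nd a).card * Δ := by
    intro a b hab
    rw [← sum_add_distrib, ← smul_eq_mul, ← sum_const]
    apply sum_congr rfl
    intro v hv
    have hv2 : nd v = a := (mem_filter.mp hv).2
    rw [← Fgs_eq G k ty nd i a b hi hty hab v hv2, Fgs_split, hS.reg v]
  have k1 := key (2 * i) (2 * i + 1) (Or.inl ⟨rfl, rfl⟩)
  have k2 := key (2 * i + 1) (2 * i) (Or.inr ⟨rfl, rfl⟩)
  have k3 := Fgs_dc G (pt nd (2 * i)) (pt nd (2 * i + 1))
  rw [hS.b1 i hi hty] at k1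
  omega

end Pool.Agent.H2.FC
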