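import Mathlib
import Pool.Agent.H2.NE.Main

/-!
GLU: proper edge colourings of three edge-disjoint graphs together are a proper edge colouring of their union.

Proof.  `glu_dg`: the neighbours of `v` in `F` are the disjoint union of those in `F1, F2, F3`. `glu`: `inv, adj` by cases. `dis`: if `i, j` are in the same block use the `dis` of this block; otherwise, if `φ i v = φ j v ≠ v` then `v, φ i v` are adjacent in two of the graphs, a contradiction.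
`cov`: an edge of `F` is in `F1`, `F2` or `F3`; use the `cov` of this graph with the label `ℓ`, `t + ℓ` or `2 t + ℓ`.
-/

set_option autoImplicit false

namespace Pool.Agent.H2.FC

open Finset Classical
open Pool.Agent.H71.DN Pool.Agent.H2.NE

theorem glu_dg {V : Type} [Fintype V] (F F1 F2 F3 : SimpleGraph V) (h1 : F1 ≤ F) (h2 : F2 ≤ F)
    (h12 : ∀ a b, F1.Adj a b → ¬ F2.Adj a b)
    (h3 : ∀ a b, F3.Adj a b ↔ F.Adj a b ∧ ¬ F1.Adj a b ∧ ¬ F2.Adj a b) (v : V) :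
    dg F1 v + dg F2 v + dg F3 v = dg F v := by
  unfold dg
  rw [Finset.card_filter, Finset.card_filter, Finset.card_filter, Finset.card_filter,
    ← Finset.sum_add_distrib, ← Finset.sum_add_distrib]
  refine Finset.sum_congr rfl fun u _ => ?_
  by_cases a1 : F1.Adj v u
  · have a2 : ¬ F2.Adj v u := h12 v u a1
    have a3 : ¬ F3.Adj v u := fun h => ((h3 v u).1 h).2.1 a1
    have a0 : F.Adj v u := h1 a1
    rw [if_pos a1, if_neg a2, if_neg a3, if_pos a0]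
  · by_cases a2 : F2.Adj v u
    · have a3 : ¬ F3.Adj v u := fun h => ((h3 v u).1 h).2.2 a2
      have a0 : F.Adj v u := h2 a2
      rw [if_neg a1, if_pos a2, if_neg a3, if_pos a0]
    · by_cases a0 : F.Adj v u
      · have a3 : F3.Adj v u := (h3 v u).2 ⟨a0, a1, a2⟩
        rw [if_neg a1, if_neg a2, if_pos a3, if_pos a0]
      · have a3 : ¬ F3.Adj v u := fun h => a0 ((h3 v u).1 h).1
        rw [if_neg a1, if_neg a2, if_neg a3, if_neg a0]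

theorem glu {V : Type} [Fintype V] (F F1 F2 F3 : SimpleGraph V) (h1 : F1 ≤ F) (h2 : F2 ≤ F)
    (h12 : ∀ a b, F1.Adj a b → ¬ F2.Adj a b)
    (h3 : ∀ a b, F3.Adj a b ↔ F.Adj a b ∧ ¬ F1.Adj a b ∧ ¬ F2.Adj a b) (t N : ℕ)
    (mm1 mm2 mm3 : ℕ → V → V) (hc1 : Col F1 t mm1) (hc2 : Col F2 t mm2) (hc3 : Col F3 N mm3) :
    Col F (2 * t + N) (fun ℓ => if ℓ < t then mm1 ℓ else if ℓ < 2 * t then mm2 (ℓ - t)
      else mm3 (ℓ - 2 * t)) := by
  obtain ⟨φ, hφ⟩ : ∃ φ : ℕ → V → V, φ = fun ℓ => if ℓ < t then mm1 ℓ else if ℓ < 2 * t then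
      mm2 (ℓ - t) else mm3 (ℓ - 2 * t) := ⟨_, rfl⟩
  rw [← hφ]
  have e1 : ∀ ℓ, ℓ < t → φ ℓ = mm1 ℓ := by
    intro ℓ h
    rw [hφ]
    exact if_pos h
  have e2 : ∀ ℓ, t ≤ ℓ → ℓ < 2 * t → φ ℓ = mm2 (ℓ - t) := by
    intro ℓ h h'
    have h4 : ¬ ℓ < t := by omega
    rw [hφ]
    exact (if_neg h4).trans (if_pos h')
  have e3 : ∀ ℓ, 2 * t ≤ ℓ → φ ℓ = mm3 (ℓ - 2 * t) := by
    intro ℓ h
    have h4 : ¬ ℓ < t := by omega
    have h5 : ¬ ℓ < 2 * t := by omega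
    rw [hφ]
    exact (if_neg h4).trans (if_neg h5)
  have hb : ∀ ℓ < 2 * t + N, (ℓ < t) ∨ (t ≤ ℓ ∧ ℓ < 2 * t) ∨ (2 * t ≤ ℓ ∧ ℓ - 2 * t < N) := by
    intro ℓ h
    omega
  have ha : ∀ ℓ < 2 * t + N, ∀ v, φ ℓ v ≠ v → (ℓ < t ∧ F1.Adj v (φ ℓ v)) ∨
      (t ≤ ℓ ∧ ℓ < 2 * t ∧ F2.Adj v (φ ℓ v)) ∨
      (2 * t ≤ ℓ ∧ ℓ - 2 * t < N ∧ F3.Adj v (φ ℓ v)) := by
    intro ℓ h v hv
    rcases hb ℓ h with h1 | ⟨h1, h1'⟩ | ⟨h1, h1'⟩
    · rw [e1 ℓ h1] at hv ⊢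
      exact Or.inl ⟨h1, hc1.adj ℓ h1 v hv⟩
    · rw [e2 ℓ h1 h1'] at hv ⊢
      exact Or.inr (Or.inl ⟨h1, h1', hc2.adj (ℓ - t) (by omega) v hv⟩)
    · rw [e3 ℓ h1] at hv ⊢
      exact Or.inr (Or.inr ⟨h1, h1', hc3.adj (ℓ - 2 * t) h1' v hv⟩)
  refine ⟨?_, ?_, ?_, ?_⟩
  · intro ℓ h
    rcases hb ℓ h with h1 | ⟨h1, h1'⟩ | ⟨h1, h1'⟩
    · rw [e1 ℓ h1]
      exact hc1.inv ℓ h1
    · rw [e2 ℓ h1 h1']
      exact hc2.inv (ℓ - t) (by omega)
    · rw [e3 ℓ h1]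
      exact hc3.inv (ℓ - 2 * t) h1'
  · intro ℓ h v hv
    rcases ha ℓ h v hv with ⟨_, h4⟩ | ⟨_, _, h4⟩ | ⟨_, _, h4⟩
    · exact h1 h4
    · exact h2 h4
    · exact ((h3 _ _).1 h4).1
  · intro i hi j hj hij v hv heq
    have hv' : φ j v ≠ v := by
      rw [← heq]
      exact hv
    rcases ha i hi v hv with ⟨i1, i2⟩ | ⟨i1, i1', i2⟩ | ⟨i1, i1', i2⟩ <;>
      rcases ha j hj v hv' with ⟨j1, j2⟩ | ⟨j1, j1', j2⟩ | ⟨j1, j1', j2⟩
    · rw [e1 i i1] at hv heq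
      rw [e1 j j1] at heq
      exact hc1.dis i i1 j j1 hij v hv heq
    · rw [← heq] at j2
      exact h12 _ _ i2 j2
    · rw [← heq] at j2
      exact ((h3 _ _).1 j2).2.1 i2
    · rw [heq] at i2
      exact h12 _ _ j2 i2
    · rw [e2 i i1 i1'] at hv heq
      rw [e2 j j1 j1'] at heq
      exact hc2.dis (i - t) (by omega) (j - t) (by omega) (by omega) v hv heq
    · rw [← heq] at j2
      exact ((h3 _ _).1 j2).2.2 i2
    · rw [heq] at i2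
      exact ((h3 _ _).1 i2).2.1 j2
    · rw [heq] at i2
      exact ((h3 _ _).1 i2).2.2 j2
    · rw [e3 i i1] at hv heq
      rw [e3 j j1] at heq
      exact hc3.dis (i - 2 * t) i1' (j - 2 * t) j1' (by omega) v hv heq
  · intro a b hab
    by_cases a1 : F1.Adj a b
    · obtain ⟨ℓ, h, h'⟩ := hc1.cov a b a1
      refine ⟨ℓ, by omega, ?_⟩
      rw [e1 ℓ h]
      exact h'
    · by_cases a2 : F2.Adj a b
      · obtain ⟨ℓ, h, h'⟩ := hc2.cov a b a2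
        refine ⟨t + ℓ, by omega, ?_⟩
        rw [e2 (t + ℓ) (by omega) (by omega), Nat.add_sub_cancel_left]
        exact h'
      · obtain ⟨ℓ, h, h'⟩ := hc3.cov a b ((h3 a b).2 ⟨hab, a1, a2⟩)
        refine ⟨2 * t + ℓ, by omega, ?_⟩
        rw [e3 (2 * t + ℓ) (by omega), Nat.add_sub_cancel_left]
        exact h'

end Pool.Agent.H2.FC
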