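import Mathlib
import Pool.Agent.H2.NE.Main

/-!
EXT: extension of a proper edge colouring to more edges, one after the other.

`ext1`: one new edge `a b`. At most `dg H a + dg H b < t` labels are used at `a` or `b` (`mm ℓ a ≠ a` for at most `dg H a` labels `ℓ < t`, since the `mm ℓ a` are different neighbours of `a`, by `adj` and `dis`). Choose a label `ℓ0 < t` with `mm ℓ0 a = a`,
`mm ℓ0 b = b`, and put `mm' ℓ0 := ` the involution `mm ℓ0` with `a ↔ b` exchanged (`Equiv.swap a b (mm ℓ0 v)`), `mm' ℓ := mm ℓ` for `ℓ ≠ ℓ0`.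
`ext`: induction on the number of the edges of `F1` that are not edges of `H` (for example on `card {p : V × V | F1.Adj p.1 p.2 ∧ ¬ H.Adj p.1 p.2}`, for all `H`); choose one such edge `a b`; `H' := H ⊔ SimpleGraph.edge a b` (or define the adjacency directly). `dg H a + 1 ≤ dg F1 a`,
`dg H b + 1 ≤ dg F1 b`, so `dg H a + dg H b < t`.
-/

set_option autoImplicit false

namespace Pool.Agent.H2.FC

open Finset Classical
open Pool.Agent.H71.DN Pool.Agent.H2.NE

theorem Ext_used {V : Type} [Fintype V] (H : SimpleGraph V) (t : ℕ) (mm : ℕ → V → V)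
    (hc : Col H t mm) (a : V) : ((range t).filter fun ℓ => mm ℓ a ≠ a).card ≤ dg H a := by
  unfold dg
  refine card_le_card_of_injOn (fun ℓ => mm ℓ a) (fun ℓ hℓ => ?_) (fun i hi j hj h => ?_)
  · have h1 := mem_filter.1 hℓ
    refine mem_coe.2 (mem_filter.2 ⟨mem_univ _, ?_⟩)
    exact hc.adj ℓ (mem_range.1 h1.1) a h1.2
  · have h1 := mem_filter.1 hi
    have h2 := mem_filter.1 hj
    by_contra hne
    exact hc.dis i (mem_range.1 h1.1) j (mem_range.1 h2.1) hne a h1.2 h

theorem ext1 {V : Type} [Fintype V] (H H' : SimpleGraph V) (t : ℕ) (mm : ℕ → V → V)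
    (hc : Col H t mm) (a b : V) (hab : a ≠ b) (hn : ¬ H.Adj a b) (hdeg : dg H a + dg H b < t)
    (hH' : ∀ x y, H'.Adj x y ↔ H.Adj x y ∨ (x = a ∧ y = b) ∨ (x = b ∧ y = a)) :
    ∃ mm' : ℕ → V → V, Col H' t mm' := by
  obtain ⟨l, hl, hla, hlb⟩ : ∃ l < t, mm l a = a ∧ mm l b = b := by
    by_contra hcon
    push Not at hcon
    have hsub : range t ⊆ ((range t).filter fun ℓ => mm ℓ a ≠ a) ∪
        ((range t).filter fun ℓ => mm ℓ b ≠ b) := by
      intro ℓ hℓ
      rw [mem_union, mem_filter, mem_filter]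
      by_cases h1 : mm ℓ a = a
      · exact Or.inr ⟨hℓ, hcon ℓ (mem_range.1 hℓ) h1⟩
      · exact Or.inl ⟨hℓ, h1⟩
    have h1 := (card_le_card hsub).trans (card_union_le _ _)
    have h2 := Ext_used H t mm hc a
    have h3 := Ext_used H t mm hc b
    rw [card_range] at h1
    omega
  have hinv := hc.inv l hl
  obtain ⟨μ, hμ⟩ : ∃ μ : V → V, μ = fun v => Equiv.swap a b (mm l v) := ⟨_, rfl⟩
  have hμa : μ a = b := by rw [hμ]; simp only; rw [hla, Equiv.swap_apply_left]
  have hμb : μ b = a := by rw [hμ]; simp only; rw [hlb, Equiv.swap_apply_right]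
  have hne : ∀ v, v ≠ a → v ≠ b → mm l v ≠ a ∧ mm l v ≠ b := by
    intro v h1 h2
    constructor
    · intro h
      apply h1
      rw [← hinv v, h, hla]
    · intro h
      apply h2
      rw [← hinv v, h, hlb]
  have hμo : ∀ v, v ≠ a → v ≠ b → μ v = mm l v := by
    intro v h1 h2
    rw [hμ]
    simp only
    obtain ⟨h3, h4⟩ := hne v h1 h2
    rw [Equiv.swap_apply_of_ne_of_ne h3 h4]
  obtain ⟨mm', hm⟩ : ∃ mm' : ℕ → V → V, mm' = fun ℓ => if ℓ = l then μ else mm ℓ := ⟨_, rfl⟩
  have hm1 : mm' l = μ := by rw [hm]; simp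
  have hm2 : ∀ ℓ, ℓ ≠ l → mm' ℓ = mm ℓ := fun ℓ h => by rw [hm]; simp [h]
  have hnb : ∀ j < t, mm j a ≠ b := by
    intro j hj h
    apply hn
    have h1 := hc.adj j hj a (by rw [h]; exact hab.symm)
    rwa [h] at h1
  have hna : ∀ j < t, mm j b ≠ a := by
    intro j hj h
    apply hn
    have h1 := hc.adj j hj b (by rw [h]; exact hab)
    rw [h] at h1
    exact h1.symm
  refine ⟨mm', ?_, ?_, ?_, ?_⟩
  · intro ℓ hℓ
    by_cases h : ℓ = l
    · rw [h, hm1]
      intro v
      by_cases h1 : v = a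
      · rw [h1, hμa, hμb]
      · by_cases h2 : v = b
        · rw [h2, hμb, hμa]
        · rw [hμo v h1 h2, hμo _ (hne v h1 h2).1 (hne v h1 h2).2, hinv v]
    · rw [hm2 ℓ h]
      exact hc.inv ℓ hℓ
  · intro ℓ hℓ v hv
    rw [hH']
    by_cases h : ℓ = l
    · rw [h, hm1] at hv ⊢
      by_cases h1 : v = a
      · exact Or.inr (Or.inl ⟨h1, by rw [h1, hμa]⟩)
      · by_cases h2 : v = b
        · exact Or.inr (Or.inr ⟨h2, by rw [h2, hμb]⟩)
        · rw [hμo v h1 h2] at hv ⊢
          exact Or.inl (hc.adj l hl v hv)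
    · rw [hm2 ℓ h] at hv ⊢
      exact Or.inl (hc.adj ℓ hℓ v hv)
  · intro i hi j hj hij v hv
    by_cases h : i = l
    · have hjl : j ≠ l := fun h2 => hij (h.trans h2.symm)
      rw [h, hm1] at hv
      rw [h, hm1, hm2 j hjl]
      by_cases h1 : v = a
      · rw [h1, hμa]
        exact (hnb j hj).symm
      · by_cases h2 : v = b
        · rw [h2, hμb]
          exact (hna j hj).symm
        · rw [hμo v h1 h2] at hv ⊢
          exact hc.dis l hl j hj hjl.symm v hv
    · rw [hm2 i h] at hv ⊢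
      by_cases h3 : j = l
      · rw [h3, hm1]
        by_cases h1 : v = a
        · rw [h1, hμa]
          exact hnb i hi
        · by_cases h2 : v = b
          · rw [h2, hμb]
            exact hna i hi
          · rw [hμo v h1 h2]
            exact hc.dis i hi l hl h v hv
      · rw [hm2 j h3]
        exact hc.dis i hi j hj hij v hv
  · intro x y hxy
    rcases (hH' x y).1 hxy with h | ⟨rfl, rfl⟩ | ⟨rfl, rfl⟩
    · obtain ⟨ℓ, hℓ, h1⟩ := hc.cov x y h
      refine ⟨ℓ, hℓ, ?_⟩
      by_cases h2 : ℓ = l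
      · rw [h2] at h1
        rw [h2, hm1]
        have hxa : x ≠ a := by
          intro h3
          rw [h3, hla] at h1
          rw [h3, ← h1] at h
          exact H.irrefl h
        have hxb : x ≠ b := by
          intro h3
          rw [h3, hlb] at h1
          rw [h3, ← h1] at h
          exact H.irrefl h
        rw [hμo x hxa hxb, h1]
      · rw [hm2 ℓ h2, h1]
    · exact ⟨l, hl, by rw [hm1, hμa]⟩
    · exact ⟨l, hl, by rw [hm1, hμb]⟩

theorem ext {V : Type} [Fintype V] (H F1 : SimpleGraph V) (hle : H ≤ F1) (t : ℕ)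
    (mm : ℕ → V → V) (hc : Col H t mm)
    (hd : ∀ a b, F1.Adj a b → ¬ H.Adj a b → dg F1 a + dg F1 b ≤ t) :
    ∃ mm' : ℕ → V → V, Col F1 t mm' := by
  obtain ⟨n, hn⟩ : ∃ n : ℕ, (univ.filter fun p : V × V => F1.Adj p.1 p.2 ∧ ¬ H.Adj p.1 p.2).card = n :=
    ⟨_, rfl⟩
  induction n using Nat.strong_induction_on generalizing H mm with
  | _ n ih =>
    by_cases hex : ∃ a b, F1.Adj a b ∧ ¬ H.Adj a b
    · obtain ⟨a, b, h1, h2⟩ := hex
      have hlt : ∀ x y, F1.Adj x y → ¬ H.Adj x y → dg H x < dg F1 x := by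
        intro x y h3 h4
        unfold dg
        apply card_lt_card
        rw [ssubset_iff_of_subset]
        · exact ⟨y, mem_filter.2 ⟨mem_univ _, h3⟩, fun h => h4 (mem_filter.1 h).2⟩
        · intro u hu
          exact mem_filter.2 ⟨mem_univ _, hle (mem_filter.1 hu).2⟩
      have ha := hlt a b h1 h2
      have hb := hlt b a h1.symm (fun h => h2 h.symm)
      have hdab := hd a b h1 h2
      obtain ⟨H', hH'⟩ : ∃ H' : SimpleGraph V, ∀ x y, H'.Adj x y ↔
          H.Adj x y ∨ (x = a ∧ y = b) ∨ (x = b ∧ y = a) := by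
        refine ⟨⟨fun x y => H.Adj x y ∨ (x = a ∧ y = b) ∨ (x = b ∧ y = a), ⟨?_⟩, ⟨?_⟩⟩, fun x y => Iff.rfl⟩
        · rintro x y (h | h | h)
          · exact Or.inl h.symm
          · exact Or.inr (Or.inr ⟨h.2, h.1⟩)
          · exact Or.inr (Or.inl ⟨h.2, h.1⟩)
        · rintro x (h | h | h)
          · exact H.irrefl h
          · exact h1.ne (h.1.symm.trans h.2)
          · exact h1.ne (h.2.symm.trans h.1)
      obtain ⟨mm', hc'⟩ := ext1 H H' t mm hc a b h1.ne h2 (by omega) hH'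
      have hle' : H' ≤ F1 := by
        intro x y h
        rcases (hH' x y).1 h with h | h | h
        · exact hle h
        · rw [h.1, h.2]
          exact h1
        · rw [h.1, h.2]
          exact h1.symm
      refine ih _ ?_ H' hle' mm' hc' (fun x y h3 h4 => hd x y h3 (fun h5 => h4 ((hH' x y).2 (Or.inl h5)))) rfl
      rw [← hn]
      apply card_lt_card
      rw [ssubset_iff_of_subset]
      · refine ⟨(a, b), mem_filter.2 ⟨mem_univ _, h1, h2⟩, fun h => ?_⟩
        exact (mem_filter.1 h).2.2 ((hH' a b).2 (Or.inr (Or.inl ⟨rfl, rfl⟩)))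
      · intro p hp
        have h3 := (mem_filter.1 hp).2
        exact mem_filter.2 ⟨mem_univ _, h3.1, fun h4 => h3.2 ((hH' _ _).2 (Or.inl h4))⟩
    · push Not at hex
      have : H = F1 := le_antisymm hle fun x y h => hex x y h
      rw [← this]
      exact ⟨mm, hc⟩

end Pool.Agent.H2.FC
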