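import Mathlib
import Pool.Agent.H2.FC.Viz
import Pool.Agent.H2.FC.Ext
import Pool.Agent.H2.FC.Hal1

/-!
HAL: a graph whose vertices of maximum degree `t` are in a small set `Lo` has a proper edge colouring with `t` labels. Use the STATEMENTS of `viz` (`FC/Viz.lean`), `ext` (`FC/Ext.lean`), `hal1` (`FC/Hal1.lean`).

Proof.  `r := #Lo`. If `Lo = ∅`: `ext` for `H := ⊥` (every edge of `F1` satisfies `hv`). Let `Lo ≠ ∅`, so `t ≥ 3`.
1. `E`: the graph of the edges of `F1` inside `Lo`: `dg E v + 1 ≤ r ≤ t` for `v ∈ Lo`, `dg E v = 0` for `v ∉ Lo`: `viz E t`.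
2. For `S ⊆ Lo` let `H_S` be the graph of the edges `a b` of `F1` with (`a, b ∈ Lo`) or (`a ∈ S` and `b ∉ Lo`) or (`b ∈ S` and `a ∉ Lo`). Induction over `S` (`Finset.induction_on` for subsets of `Lo`): `H_S` has a `Col` with `t` labels. `H_∅ = E`. Step: `w ∈ Lo`, `w ∉ S`: `hal1` with
 `N := {y ∉ Lo : F1.Adj w y}`: `dg H_S w = #{y ∈ Lo : F1.Adj w y}`, so `dg H_S w + #N = dg F1 w = t`; for `y ∈ N`: the neighbours of `y` in `H_S` are in `S`: `dg H_S y ≤ r`; `hl`: if `mm ℓ y ≠ y`, `y ∈ N`, then `mm ℓ y ∈ S` (by `adj`), and `y ↦ mm ℓ y` is injective: at most `#S ≤ r` such `y`.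
 `hr`: `#N ≥ t - r ≥ 2 r`.
3. `H_Lo` contains all edges of `F1` except those with both ends outside `Lo`: `ext` with `hv`.
-/

set_option autoImplicit false

namespace Pool.Agent.H2.FC

open Finset Classical
open Pool.Agent.H71.DN Pool.Agent.H2.NE

/-- The edges of `F1` inside `Lo` and those between `S` and the complement of `Lo`. -/
def halG {V : Type} (F1 : SimpleGraph V) (Lo S : Finset V) : SimpleGraph V where
  Adj a b := F1.Adj a b ∧ ((a ∈ Lo ∧ b ∈ Lo) ∨ (a ∈ S ∧ b ∉ Lo) ∨ (b ∈ S ∧ a ∉ Lo))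
  symm := ⟨by
    rintro a b ⟨h, h'⟩
    refine ⟨h.symm, ?_⟩
    rcases h' with h' | h' | h'
    · exact Or.inl ⟨h'.2, h'.1⟩
    · exact Or.inr (Or.inr h')
    · exact Or.inr (Or.inl h')⟩
  loopless := ⟨fun a h => F1.loopless.irrefl a h.1⟩

theorem halG_step {V : Type} [Fintype V] (F1 : SimpleGraph V) (Lo : Finset V) (t : ℕ)
    (hw : ∀ w ∈ Lo, dg F1 w = t) (ht : 3 * Lo.card ≤ t) (S : Finset V) (w : V) (hwS : w ∉ S)
    (hS : insert w S ⊆ Lo) (hi : ∃ mm : ℕ → V → V, Col (halG F1 Lo S) t mm) :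
    ∃ mm : ℕ → V → V, Col (halG F1 Lo (insert w S)) t mm := by
  obtain ⟨mm, hc⟩ := hi
  have hwLo : w ∈ Lo := hS (Finset.mem_insert_self w S)
  have hSLo : S ⊆ Lo := fun x hx => hS (Finset.mem_insert_of_mem hx)
  have hnb : ∀ y, y ∉ Lo → ∀ u, (halG F1 Lo S).Adj y u → u ∈ Lo := by
    rintro y hy u ⟨_, h | h | h⟩
    · exact absurd h.1 hy
    · exact absurd (hSLo h.1) hy
    · exact hSLo h.1
  have hdw : dg (halG F1 Lo S) w + (univ.filter fun y => F1.Adj w y ∧ y ∉ Lo).card = t := by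
    have e1 : dg (halG F1 Lo S) w = ((univ.filter fun u => F1.Adj w u).filter fun u => u ∈ Lo).card := by
      unfold dg
      congr 1
      ext u
      rw [Finset.mem_filter, Finset.mem_filter, Finset.mem_filter]
      constructor
      · rintro ⟨_, h1, h | h | h⟩
        · exact ⟨⟨Finset.mem_univ u, h1⟩, h.2⟩
        · exact absurd h.1 hwS
        · exact absurd hwLo h.2
      · rintro ⟨⟨_, h1⟩, h2⟩
        exact ⟨Finset.mem_univ u, h1, Or.inl ⟨hwLo, h2⟩⟩
    have e2 : (univ.filter fun y => F1.Adj w y ∧ y ∉ Lo) =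
        ((univ.filter fun u => F1.Adj w u).filter fun u => ¬ u ∈ Lo) := by
      ext u
      simp only [Finset.mem_filter, Finset.mem_univ, true_and]
    rw [e1, e2, Finset.card_filter_add_card_filter_not]
    exact hw w hwLo
  have hdw2 : dg (halG F1 Lo S) w ≤ Lo.card := by
    unfold dg
    apply Finset.card_le_card
    intro u hu
    rw [Finset.mem_filter] at hu
    obtain ⟨_, _, h | h | h⟩ := hu
    · exact h.2
    · exact absurd h.1 hwS
    · exact absurd hwLo h.2
  refine hal1 (halG F1 Lo S) (halG F1 Lo (insert w S)) w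
    (univ.filter fun y => F1.Adj w y ∧ y ∉ Lo) t Lo.card mm hc ?_ ?_ hdw ?_ ?_ ?_ ?_
  · intro h
    rw [Finset.mem_filter] at h
    exact h.2.2 hwLo
  · intro y hy hA
    rw [Finset.mem_filter] at hy
    exact hy.2.2 (by
      obtain ⟨_, h | h | h⟩ := hA
      · exact h.2
      · exact absurd h.1 hwS
      · exact hSLo h.1)
  · intro y hy
    rw [Finset.mem_filter] at hy
    unfold dg
    apply Finset.card_le_card
    intro u hu
    rw [Finset.mem_filter] at hu
    exact hnb y hy.2.2 u hu.2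
  · intro ℓ hℓ
    apply Finset.card_le_card_of_injOn (fun y => mm ℓ y)
    · intro y hy
      rw [Finset.mem_coe, Finset.mem_filter, Finset.mem_filter] at hy
      exact hnb y hy.1.2.2 _ (hc.adj ℓ hℓ y hy.2)
    · intro y _ y' _ h
      have h' : mm ℓ y = mm ℓ y' := h
      have h1 := hc.inv ℓ hℓ y
      have h2 := hc.inv ℓ hℓ y'
      rw [← h1, h', h2]
  · omega
  · intro a b
    simp only [halG, Finset.mem_filter, Finset.mem_univ, true_and, Finset.mem_insert]
    constructor
    · rintro ⟨h0, h | h | h⟩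
      · exact Or.inl ⟨h0, Or.inl h⟩
      · rcases h.1 with h1 | h1
        · right; left
          exact ⟨h1, by rw [← h1]; exact h0, h.2⟩
        · exact Or.inl ⟨h0, Or.inr (Or.inl ⟨h1, h.2⟩)⟩
      · rcases h.1 with h1 | h1
        · right; right
          exact ⟨h1, by rw [← h1]; exact h0.symm, h.2⟩
        · exact Or.inl ⟨h0, Or.inr (Or.inr ⟨h1, h.2⟩)⟩
    · rintro (⟨h0, h | h | h⟩ | ⟨h1, h2, h3⟩ | ⟨h1, h2, h3⟩)
      · exact ⟨h0, Or.inl h⟩
      · exact ⟨h0, Or.inr (Or.inl ⟨Or.inr h.1, h.2⟩)⟩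
      · exact ⟨h0, Or.inr (Or.inr ⟨Or.inr h.1, h.2⟩)⟩
      · rw [← h1] at h2
        exact ⟨h2, Or.inr (Or.inl ⟨Or.inl h1, h3⟩)⟩
      · rw [← h1] at h2
        exact ⟨h2.symm, Or.inr (Or.inr ⟨Or.inl h1, h3⟩)⟩

theorem hal {V : Type} [Fintype V] (F1 : SimpleGraph V) (Lo : Finset V) (t : ℕ)
    (hw : ∀ w ∈ Lo, dg F1 w = t)
    (hv : ∀ a b, F1.Adj a b → a ∉ Lo → b ∉ Lo → dg F1 a + dg F1 b ≤ t)
    (ht : 3 * Lo.card ≤ t) : ∃ mm : ℕ → V → V, Col F1 t mm := by
  rcases Finset.eq_empty_or_nonempty Lo with hLo | hLo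
  · have hc : Col (⊥ : SimpleGraph V) t (fun _ => id) := by
      refine ⟨fun _ _ _ => rfl, fun _ _ v hv' => absurd rfl hv', fun _ _ _ _ _ v hv' => absurd rfl hv', ?_⟩
      intro a b h
      exact absurd h (by simp)
    refine ext ⊥ F1 bot_le t _ hc ?_
    intro a b hab _
    exact hv a b hab (by simp [hLo]) (by simp [hLo])
  · have hr : 1 ≤ Lo.card := Finset.card_pos.2 hLo
    have key : ∀ S : Finset V, S ⊆ Lo → ∃ mm : ℕ → V → V, Col (halG F1 Lo S) t mm := by
      intro S
      induction S using Finset.induction_on with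
      | empty =>
        intro _
        apply viz
        intro v
        have h1 : dg (halG F1 Lo ∅) v ≤ Lo.card := by
          unfold dg
          apply Finset.card_le_card
          intro u hu
          rw [Finset.mem_filter] at hu
          obtain ⟨_, _, h | h | h⟩ := hu
          · exact h.2
          · exact absurd h.1 (Finset.notMem_empty _)
          · exact absurd h.1 (Finset.notMem_empty _)
        omega
      | insert w S hwS ih =>
        intro hS
        exact halG_step F1 Lo t hw ht S w hwS hS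
          (ih (fun x hx => hS (Finset.mem_insert_of_mem hx)))
    obtain ⟨mm, hc⟩ := key Lo (Finset.Subset.refl Lo)
    refine ext (halG F1 Lo Lo) F1 ?_ t mm hc ?_
    · intro a b h
      exact h.1
    · intro a b hab hn
      have ha : a ∉ Lo := by
        intro ha
        apply hn
        refine ⟨hab, ?_⟩
        by_cases hb : b ∈ Lo
        · exact Or.inl ⟨ha, hb⟩
        · exact Or.inr (Or.inl ⟨ha, hb⟩)
      have hb : b ∉ Lo := by
        intro hb
        apply hn
        exact ⟨hab, Or.inr (Or.inr ⟨hb, ha⟩)⟩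
      exact hv a b hab ha hb

end Pool.Agent.H2.FC
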