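import Mathlib
import Pool.Agent.H71.DC.Defs2
import Pool.Agent.H2.NE.Main

/-!
BAS: simple facts about `Col`.

Proof.  `col_dg`: the map `ℓ ↦ mm ℓ v` is a bijection from `{ℓ < L : mm ℓ v ≠ v}` to `{u : H.Adj v u}` (`adj`; injective by `dis`; onto by `cov`, where `mm ℓ v = u ≠ v` as `H.Adj v u`). `col_sum`: exchange the sums (`Finset.card_filter`, `Finset.sum_comm`), `col_dg`. `col_full`: the filter is all of `range L`.
`win`: If `b = 0` everything is trivial. Let `b > 0`, `s` be the minimum of `u` on `range b`, so `s ≤ u ℓ ≤ s + 3` for `ℓ < b`. `30 b s ≤ 30 ∑ u ≤ b`, so `s ≤ 0`; `30 b (s + 3) ≥ 30 ∑ u ≥ -b`, so `s + 3 ≥ 0`. So `s ∈ {-3, -2, -1, 0}` and `|u ℓ| ≤ 3`. For integers `s ≤ u ≤ s + 3` with `-3 ≤ s ≤ 0`: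
`3 max 0 (-u) ≤ (-s) (s + 3 - u)` (check `u ≥ 0`: the right side is `≥ 0`; `u < 0`: `(-s) (s + 3 - u) + 3 u = (s + 3) (u - s) ≥ 0`). Sum: `3 ∑ max 0 (-u) ≤ (-s) ((s + 3) b - ∑ u)`, `(-s) (s + 3) ≤ 2` and `(-s) (- ∑ u) ≤ 3 |∑ u|`, so `30 ∑ max 0 (-u) ≤ 20 b + 30 |∑ u| ≤ 21 b`.
-/

set_option autoImplicit false

namespace Pool.Agent.H2.FC

open Finset Classical
open Pool.Agent.H71.DN Pool.Agent.H71.DC Pool.Agent.H2.NE

theorem col_dg {V : Type} [Fintype V] (H : SimpleGraph V) (L : ℕ) (mm : ℕ → V → V)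
    (hc : Col H L mm) (v : V) : ((range L).filter fun ℓ => mm ℓ v ≠ v).card = dg H v := by
  unfold dg
  refine Finset.card_bij (fun ℓ _ => mm ℓ v) ?_ ?_ ?_
  · intro ℓ hℓ
    rw [mem_filter, mem_range] at hℓ
    rw [mem_filter]
    exact ⟨mem_univ _, hc.adj ℓ hℓ.1 v hℓ.2⟩
  · intro i hi j hj hij
    rw [mem_filter, mem_range] at hi hj
    by_contra hne
    exact hc.dis i hi.1 j hj.1 hne v hi.2 hij
  · intro u hu
    rw [mem_filter] at hu
    obtain ⟨ℓ, hℓ, hm⟩ := hc.cov v u hu.2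
    refine ⟨ℓ, ?_, hm⟩
    rw [mem_filter, mem_range]
    refine ⟨hℓ, ?_⟩
    rw [hm]
    exact hu.2.ne'

theorem col_sum {V : Type} [Fintype V] (H : SimpleGraph V) (L : ℕ) (mm : ℕ → V → V)
    (hc : Col H L mm) (A : Finset V) :
    ∑ ℓ ∈ range L, (A.filter fun v => mm ℓ v ≠ v).card = ∑ v ∈ A, dg H v := by
  have h1 : ∀ ℓ ∈ range L, (A.filter fun v => mm ℓ v ≠ v).card =
      ∑ v ∈ A, if mm ℓ v ≠ v then 1 else 0 := fun ℓ _ => Finset.card_filter _ _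
  rw [Finset.sum_congr rfl h1, Finset.sum_comm]
  refine Finset.sum_congr rfl fun v _ => ?_
  rw [← col_dg H L mm hc v, Finset.card_filter]

theorem col_full {V : Type} [Fintype V] (H : SimpleGraph V) (L : ℕ) (mm : ℕ → V → V)
    (hc : Col H L mm) (v : V) (hv : dg H v = L) : ∀ ℓ < L, mm ℓ v ≠ v := by
  have h1 := col_dg H L mm hc v
  rw [hv] at h1
  have h2 : ((range L).filter fun ℓ => mm ℓ v ≠ v) = range L := by
    apply Finset.eq_of_subset_of_card_le (Finset.filter_subset _ _)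
    rw [h1, card_range]
  intro ℓ hℓ
  have h3 : ℓ ∈ (range L).filter fun ℓ => mm ℓ v ≠ v := by
    rw [h2]
    exact mem_range.2 hℓ
  exact (mem_filter.1 h3).2

theorem Bas_pt (s u : ℤ) (h1 : -3 ≤ s) (h2 : s ≤ 0) (h3 : s ≤ u) (h4 : u ≤ s + 3) :
    3 * max 0 (-u) ≤ (-s) * (s + 3 - u) := by
  rcases le_total 0 u with h | h
  · rw [max_eq_left (by omega)]
    have : 0 ≤ (-s) * (s + 3 - u) := mul_nonneg (by omega) (by omega)
    omega
  · rw [max_eq_right (by omega)]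
    have : 0 ≤ (s + 3) * (u - s) := mul_nonneg (by omega) (by omega)
    nlinarith

theorem win (b : ℕ) (u : ℕ → ℤ) (hu : ∀ ℓ < b, ∀ ℓ' < b, |u ℓ - u ℓ'| ≤ 3)
    (hs : 30 * |∑ ℓ ∈ range b, u ℓ| ≤ b) :
    (∀ ℓ < b, |u ℓ| ≤ 3) ∧ 10 * ∑ ℓ ∈ range b, max 0 (-u ℓ) ≤ 7 * b := by
  rcases Nat.eq_zero_or_pos b with hb | hb
  · subst hb
    refine ⟨fun ℓ hℓ => absurd hℓ (Nat.not_lt_zero _), ?_⟩
    simp
  · obtain ⟨m, hm, hmin⟩ := Finset.exists_min_image (range b) u ⟨0, mem_range.2 hb⟩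
    rw [mem_range] at hm
    obtain ⟨s, hsm⟩ : ∃ s, s = u m := ⟨_, rfl⟩
    have hlo : ∀ ℓ < b, s ≤ u ℓ := fun ℓ hℓ => by
      rw [hsm]
      exact hmin ℓ (mem_range.2 hℓ)
    have hhi : ∀ ℓ < b, u ℓ ≤ s + 3 := fun ℓ hℓ => by
      have := (abs_le.1 (hu ℓ hℓ m hm)).2
      rw [hsm]
      omega
    have hbz : (0 : ℤ) < b := by exact_mod_cast hb
    obtain ⟨S, hS⟩ : ∃ S, S = ∑ ℓ ∈ range b, u ℓ := ⟨_, rfl⟩
    rw [← hS] at hs
    have hS1 : (b : ℤ) * s ≤ S := by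
      rw [hS]
      have := Finset.card_nsmul_le_sum (range b) u s (fun ℓ hℓ => hlo ℓ (mem_range.1 hℓ))
      rw [card_range, nsmul_eq_mul] at this
      exact this
    have hS2 : S ≤ (b : ℤ) * (s + 3) := by
      rw [hS]
      have := Finset.sum_le_card_nsmul (range b) u (s + 3) (fun ℓ hℓ => hhi ℓ (mem_range.1 hℓ))
      rw [card_range, nsmul_eq_mul] at this
      exact this
    have ha1 := le_abs_self S
    have ha2 := neg_abs_le S
    have hs0 : s ≤ 0 := by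
      by_contra hcon
      push Not at hcon
      have : (b : ℤ) * 1 ≤ b * s := mul_le_mul_of_nonneg_left (by omega) hbz.le
      omega
    have hs3 : -3 ≤ s := by
      by_contra hcon
      push Not at hcon
      have : (b : ℤ) * (s + 3) ≤ b * (-1) := mul_le_mul_of_nonneg_left (by omega) hbz.le
      omega
    refine ⟨fun ℓ hℓ => ?_, ?_⟩
    · have h1 := hlo ℓ hℓ
      have h2 := hhi ℓ hℓ
      rw [abs_le]
      omega
    · have h1 : ∑ ℓ ∈ range b, 3 * max 0 (-u ℓ) ≤ ∑ ℓ ∈ range b, (-s) * (s + 3 - u ℓ) :=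
        Finset.sum_le_sum fun ℓ hℓ => Bas_pt s (u ℓ) hs3 hs0 (hlo ℓ (mem_range.1 hℓ))
          (hhi ℓ (mem_range.1 hℓ))
      rw [← Finset.mul_sum, ← Finset.mul_sum, Finset.sum_sub_distrib, ← hS, Finset.sum_const,
        card_range, nsmul_eq_mul] at h1
      have h2 : (-s) * (s + 3) ≤ 2 := by
        have : s = -3 ∨ s = -2 ∨ s = -1 ∨ s = 0 := by omega
        rcases this with rfl | rfl | rfl | rfl <;> norm_num
      have h3 : (b : ℤ) * ((-s) * (s + 3)) ≤ b * 2 := mul_le_mul_of_nonneg_left h2 hbz.le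
      have h4 : s * S ≤ 3 * |S| := by
        calc s * S ≤ |s * S| := le_abs_self _
          _ = |s| * |S| := abs_mul _ _
          _ ≤ 3 * |S| := mul_le_mul_of_nonneg_right (by rw [abs_le]; omega) (abs_nonneg _)
      have h5 : (-s) * ((b : ℤ) * (s + 3) - S) = b * ((-s) * (s + 3)) + s * S := by ring
      rw [h5] at h1
      omega

end Pool.Agent.H2.FC
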