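import Mathlib
import Pool.Agent.H71.TD.Ifc
import Pool.Agent.H2.NE.Ne3
import Pool.Agent.H2.FC.Bas

/-!
BLK: one block of labels. A proper colouring of `H` with `b` labels can be changed so that at every label the pieces `P < 2 k` are covered nearly equally, and the differences `uu` of the pieces `2 i, 2 i + 1` are in a window of length `3`. Use the STATEMENTS of `ne3` (`NE/Ne3.lean`) and of `FC/Bas.lean`.

Proof.  `ne3 H b mm0 h0` with `ι := Fin (2 k + 1)`, `pool v := min (nd v) (2 k)`, `sgn v := if nd v < 2 k then 1 else 0`, `κ := Fin k`, `a i := 2 i`, `b i := 2 i + 1` (as elements of `Fin (2 k + 1)`; injective, `2 i ≠ 2 i' + 1`): `mm`. For `P < 2 k`: `zz pool sgn P (mm ℓ) = #{v ∈ pt nd P : mm ℓ v ≠ v} =: x P ℓ`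
(`pool v = P` iff `nd v = P`, and then `sgn v = 1`). `∑_{ℓ < b} x P ℓ = ∑_{v ∈ pt nd P} dg H v` (`col_sum`). `x P ℓ ≤ x P ℓ' + 2` for all `ℓ, ℓ' < b`, so `b x P ℓ ≤ ∑_{v ∈ pt nd P} dg H v + 2 b`; sum over `P < 2 k` (the set `{nd v < 2 k, mm ℓ v ≠ v}` is the disjoint union of the `{v ∈ pt nd P : mm ℓ v ≠ v}`).
For `i < k`: `uu nd (mm ℓ) i = x (2 i) ℓ - x (2 i + 1) ℓ`, its differences are at most `3` (`ne3`), its sum over `ℓ < b` is `∑_{pt nd (2 i)} dg H - ∑_{pt nd (2 i + 1)} dg H`: `win`.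
-/

set_option autoImplicit false

namespace Pool.Agent.H2.FC

open Finset Classical
open Pool.Agent.H71.DN Pool.Agent.H71.DC Pool.Agent.H71.TD Pool.Agent.H2.NE

theorem blk {V : Type} [Fintype V] (H : SimpleGraph V) (nd : V → ℕ) (k b : ℕ)
    (mm0 : ℕ → V → V) (h0 : Col H b mm0) :
    ∃ mm : ℕ → V → V, Col H b mm ∧
      (∀ ℓ < b, b * (univ.filter fun v => nd v < 2 * k ∧ mm ℓ v ≠ v).card ≤
        ∑ v ∈ univ.filter (fun v => nd v < 2 * k), dg H v + 4 * k * b) ∧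
      ∀ i < k, 30 * |∑ v ∈ pt nd (2 * i), (dg H v : ℤ) -
          ∑ v ∈ pt nd (2 * i + 1), (dg H v : ℤ)| ≤ b →
        (∀ ℓ < b, |uu nd (mm ℓ) i| ≤ 3) ∧
          10 * ∑ ℓ ∈ range b, max 0 (-uu nd (mm ℓ) i) ≤ 7 * b := by
  obtain ⟨pool, hpool⟩ : ∃ pool : V → Fin (2 * k + 1),
      ∀ v, ((pool v : Fin (2 * k + 1)) : ℕ) = min (nd v) (2 * k) :=
    ⟨fun v => ⟨min (nd v) (2 * k), by omega⟩, fun v => rfl⟩
  obtain ⟨sgn, hsgn⟩ : ∃ sgn : V → ℤ, ∀ v, sgn v = if nd v < 2 * k then 1 else 0 :=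
    ⟨_, fun _ => rfl⟩
  obtain ⟨mm, hmm, hA, hB⟩ := ne3 (κ := Fin k) H b mm0 h0 pool sgn
    (fun v => by rw [hsgn]; split_ifs <;> norm_num)
    (fun j => ⟨2 * (j : ℕ), by have := j.2; omega⟩)
    (fun j => ⟨2 * (j : ℕ) + 1, by have := j.2; omega⟩)
    (fun j j' h => by
      have h' := congrArg Fin.val h
      have h2 : 2 * (j : ℕ) = 2 * (j' : ℕ) := h'
      exact Fin.ext (by omega))
    (fun j j' h => by
      have h' := congrArg Fin.val h
      have h2 : 2 * (j : ℕ) = 2 * (j' : ℕ) + 1 := h'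
      omega)
  obtain ⟨x, hx⟩ : ∃ x : ℕ → ℕ → ℕ, ∀ P ℓ, x P ℓ =
      ((pt nd P).filter fun v => mm ℓ v ≠ v).card := ⟨_, fun _ _ => rfl⟩
  have hz : ∀ (P : ℕ) (hP : P < 2 * k) (ℓ : ℕ),
      zz pool sgn ⟨P, by omega⟩ (mm ℓ) = (x P ℓ : ℤ) := by
    intro P hP ℓ
    rw [hx]
    unfold zz
    rw [Finset.card_eq_sum_ones, Nat.cast_sum]
    refine Finset.sum_congr ?_ fun v hv => ?_
    · ext v
      simp only [pt, mem_filter, mem_univ, true_and, Fin.ext_iff, hpool]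
      constructor
      · rintro ⟨h, h'⟩
        exact ⟨by omega, h'⟩
      · rintro ⟨h, h'⟩
        exact ⟨by omega, h'⟩
    · rw [mem_filter, pt, mem_filter] at hv
      rw [hsgn, if_pos (by rw [hv.1.2]; exact hP), Nat.cast_one]
  have hs : ∀ P, ∑ ℓ ∈ range b, x P ℓ = ∑ v ∈ pt nd P, dg H v := by
    intro P
    rw [← col_sum H b mm hmm (pt nd P)]
    exact Finset.sum_congr rfl fun ℓ _ => hx P ℓ
  refine ⟨mm, hmm, ?_, ?_⟩
  · intro ℓ hℓ
    have h1 : ∀ P ∈ range (2 * k), b * x P ℓ ≤ ∑ v ∈ pt nd P, dg H v + 2 * b := by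
      intro P hP
      rw [mem_range] at hP
      rw [← hs P]
      have h2 : ∀ ℓ' ∈ range b, x P ℓ ≤ x P ℓ' + 2 := by
        intro ℓ' hℓ'
        have h3 := hA ⟨P, by omega⟩ ℓ hℓ ℓ' (mem_range.1 hℓ')
        rw [hz P hP, hz P hP] at h3
        have h4 := (abs_le.1 h3).2
        omega
      calc b * x P ℓ = ∑ _ℓ' ∈ range b, x P ℓ := by
            rw [Finset.sum_const, card_range, smul_eq_mul]
        _ ≤ ∑ ℓ' ∈ range b, (x P ℓ' + 2) := Finset.sum_le_sum h2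
        _ = ∑ ℓ' ∈ range b, x P ℓ' + 2 * b := by
            rw [Finset.sum_add_distrib, Finset.sum_const, card_range, smul_eq_mul, mul_comm b 2]
    have h3 : (univ.filter fun v => nd v < 2 * k ∧ mm ℓ v ≠ v).card =
        ∑ P ∈ range (2 * k), x P ℓ := by
      rw [Finset.card_eq_sum_card_fiberwise (f := nd) (t := range (2 * k))]
      · refine Finset.sum_congr rfl fun P hP => ?_
        rw [mem_range] at hP
        rw [hx]
        refine congrArg Finset.card ?_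
        ext v
        simp only [pt, mem_filter, mem_univ, true_and]
        constructor
        · rintro ⟨⟨h4, h5⟩, h6⟩
          exact ⟨h6, h5⟩
        · rintro ⟨h4, h5⟩
          exact ⟨⟨by omega, h5⟩, h4⟩
      · intro v hv
        have hv' := (mem_filter.1 (Finset.mem_coe.1 hv)).2.1
        exact Finset.mem_coe.2 (mem_range.2 hv')
    have h4 : ∑ v ∈ univ.filter (fun v => nd v < 2 * k), dg H v =
        ∑ P ∈ range (2 * k), ∑ v ∈ pt nd P, dg H v := by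
      rw [← Finset.sum_fiberwise_of_maps_to (s := univ.filter (fun v => nd v < 2 * k))
        (t := range (2 * k)) (g := nd) (fun v hv => mem_range.2 (mem_filter.1 hv).2)]
      refine Finset.sum_congr rfl fun P hP => ?_
      rw [mem_range] at hP
      refine Finset.sum_congr ?_ fun _ _ => rfl
      ext v
      simp only [pt, mem_filter, mem_univ, true_and]
      constructor
      · rintro ⟨_, h6⟩
        exact h6
      · intro h6
        exact ⟨by omega, h6⟩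
    rw [h3, h4, Finset.mul_sum]
    calc ∑ P ∈ range (2 * k), b * x P ℓ
        ≤ ∑ P ∈ range (2 * k), (∑ v ∈ pt nd P, dg H v + 2 * b) := Finset.sum_le_sum h1
      _ = ∑ P ∈ range (2 * k), ∑ v ∈ pt nd P, dg H v + 4 * k * b := by
          rw [Finset.sum_add_distrib, Finset.sum_const, card_range, smul_eq_mul]
          ring
  · intro i hi hb
    have h5 : 2 * i < 2 * k := by omega
    have h6 : 2 * i + 1 < 2 * k := by omega
    have h7 : ∀ ℓ, uu nd (mm ℓ) i = (x (2 * i) ℓ : ℤ) - x (2 * i + 1) ℓ := by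
      intro ℓ
      rw [hx, hx]
      rfl
    have h8 : ∀ ℓ < b, ∀ ℓ' < b, |((x (2 * i) ℓ : ℤ) - x (2 * i + 1) ℓ) -
        ((x (2 * i) ℓ' : ℤ) - x (2 * i + 1) ℓ')| ≤ 3 := by
      intro ℓ hℓ ℓ' hℓ'
      rw [← hz (2 * i) h5 ℓ, ← hz (2 * i) h5 ℓ', ← hz (2 * i + 1) h6 ℓ,
        ← hz (2 * i + 1) h6 ℓ']
      exact hB ⟨i, hi⟩ ℓ hℓ ℓ' hℓ'
    refine win b (fun ℓ => uu nd (mm ℓ) i) (fun ℓ hℓ ℓ' hℓ' => ?_) ?_
    · show |uu nd (mm ℓ) i - uu nd (mm ℓ') i| ≤ 3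
      rw [h7, h7]
      exact h8 ℓ hℓ ℓ' hℓ'
    · have h9 : ∑ ℓ ∈ range b, (fun ℓ => uu nd (mm ℓ) i) ℓ =
          ∑ v ∈ pt nd (2 * i), (dg H v : ℤ) - ∑ v ∈ pt nd (2 * i + 1), (dg H v : ℤ) := by
        calc ∑ ℓ ∈ range b, (fun ℓ => uu nd (mm ℓ) i) ℓ
            = ∑ ℓ ∈ range b, ((x (2 * i) ℓ : ℤ) - x (2 * i + 1) ℓ) :=
              Finset.sum_congr rfl fun ℓ _ => h7 ℓ
          _ = ((∑ ℓ ∈ range b, x (2 * i) ℓ : ℕ) : ℤ) -
              ((∑ ℓ ∈ range b, x (2 * i + 1) ℓ : ℕ) : ℤ) := by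
              rw [Finset.sum_sub_distrib, Nat.cast_sum, Nat.cast_sum]
          _ = ∑ v ∈ pt nd (2 * i), (dg H v : ℤ) -
              ∑ v ∈ pt nd (2 * i + 1), (dg H v : ℤ) := by
              rw [hs, hs, Nat.cast_sum, Nat.cast_sum]
      rw [h9]
      exact hb

end Pool.Agent.H2.FC
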