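import Mathlib
import Pool.Agent.H71.TD.Ifc
import Pool.Agent.H2.FC.Viz
import Pool.Agent.H2.FC.Blk

/-!
RB: the block of the remaining labels, with the colours `c0 w` of the exceptional vertices. Use the STATEMENTS of `viz` (`FC/Viz.lean`) and `blk` (`FC/Blk.lean`).

Proof.  `Lo := pt nd (2 k)`. On `Option V` let `H'` be the graph with `H'.Adj (some a) (some b) ↔ H.Adj a b`, `H'.Adj none (some w) ↔ w ∈ Lo` (and symmetric; `none` is not adjacent to itself). `dg H' (some v) = dg H v + (1 if v ∈ Lo else 0)`, `dg H' none = #Lo`: `viz H' N` gives a `Col`, and `blk H' nd' k N`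
with `nd' none := 2 k`, `nd' (some v) := nd v` gives `mm'`. `mm ℓ v :=` the `u` with `mm' ℓ (some v) = some u` if there is one, otherwise (`mm' ℓ (some v) = none`) `v` (`(mm' ℓ (some v)).getD v`). `Col H N mm`: `inv`: if `mm' ℓ (some v) = some u` then `mm' ℓ (some u) = some v`. `adj, dis, cov` from those of `mm'`
(`cov`: `H.Adj a b` gives `ℓ` with `mm' ℓ (some a) = some b`). For `w ∈ Lo` let `c0 w < N` be a label with `mm' (c0 w) none = some w` (`cov`); then `mm' (c0 w) (some w) = none` and `mm (c0 w) w = w`; `c0 w = c0 w'` gives `some w = some w'`.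
For `v` with `nd v < 2 k`: `mm' ℓ (some v) ≠ none` (otherwise `H'.Adj (some v) none`, `v ∈ Lo`), so `mm ℓ v ≠ v` iff `mm' ℓ (some v) ≠ some v`. So all the sets `{nd v < 2 k, ..}`, `pt nd (2 i)`, `pt nd (2 i + 1)` (`i < k`) for `V` correspond by `some` (injective) to those for `Option V`, with the same degrees and the same `uu`.
-/

set_option autoImplicit false

namespace Pool.Agent.H2.FC

open Finset Classical
open Pool.Agent.H71.DN Pool.Agent.H71.DC Pool.Agent.H71.TD Pool.Agent.H2.NE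

/-- `H` with one more vertex joined with `Lo` -/
def Rb_H {V : Type} (H : SimpleGraph V) (Lo : Finset V) : SimpleGraph (Option V) where
  Adj x y := (∃ a b, x = some a ∧ y = some b ∧ H.Adj a b) ∨
    (∃ w ∈ Lo, (x = none ∧ y = some w) ∨ (x = some w ∧ y = none))
  symm := ⟨by
    rintro x y (⟨a, b, rfl, rfl, h⟩ | ⟨w, hw, h⟩)
    · exact Or.inl ⟨b, a, rfl, rfl, h.symm⟩
    · exact Or.inr ⟨w, hw, h.elim (fun h => Or.inr ⟨h.2, h.1⟩) (fun h => Or.inl ⟨h.2, h.1⟩)⟩⟩
  loopless := ⟨by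
    rintro x (⟨a, b, h1, h2, h⟩ | ⟨w, hw, h⟩)
    · rw [h1] at h2
      have h3 : a = b := Option.some_injective _ h2
      rw [h3] at h
      exact H.irrefl h
    · rcases h with ⟨h1, h2⟩ | ⟨h1, h2⟩
      · rw [h1] at h2
        cases h2
      · rw [h2] at h1
        cases h1⟩

theorem Rb_ss {V : Type} (H : SimpleGraph V) (Lo : Finset V) (a b : V) :
    (Rb_H H Lo).Adj (some a) (some b) ↔ H.Adj a b := by
  constructor
  · rintro (⟨c, d, h1, h2, h⟩ | ⟨w, hw, h⟩)
    · rw [Option.some_injective _ h1, Option.some_injective _ h2]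
      exact h
    · rcases h with ⟨h1, h2⟩ | ⟨h1, h2⟩
      · cases h1
      · cases h2
  · intro h
    exact Or.inl ⟨a, b, rfl, rfl, h⟩

theorem Rb_ns {V : Type} (H : SimpleGraph V) (Lo : Finset V) (a : V) :
    (Rb_H H Lo).Adj none (some a) ↔ a ∈ Lo := by
  constructor
  · rintro (⟨c, d, h1, h2, h⟩ | ⟨w, hw, h⟩)
    · cases h1
    · rcases h with ⟨h1, h2⟩ | ⟨h1, h2⟩
      · rw [Option.some_injective _ h2]
        exact hw
      · cases h2
  · intro h
    exact Or.inr ⟨a, h, Or.inl ⟨rfl, rfl⟩⟩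

theorem Rb_sn {V : Type} (H : SimpleGraph V) (Lo : Finset V) (a : V) :
    (Rb_H H Lo).Adj (some a) none ↔ a ∈ Lo := by
  rw [SimpleGraph.adj_comm, Rb_ns]

theorem Rb_card {V : Type} [Fintype V] (p : Option V → Prop) (q : V → Prop) [DecidablePred p]
    [DecidablePred q] (hn : ¬ p none)
    (h : ∀ v, p (some v) ↔ q v) : (univ.filter p).card = (univ.filter q).card := by
  rw [Finset.card_filter, Finset.card_filter, Fintype.sum_option, if_neg hn, zero_add]
  refine Finset.sum_congr rfl fun v _ => ?_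
  by_cases h1 : q v
  · rw [if_pos h1, if_pos ((h v).2 h1)]
  · rw [if_neg h1, if_neg (fun h2 => h1 ((h v).1 h2))]

theorem Rb_sum {V M : Type} [Fintype V] [AddCommMonoid M] (p : Option V → Prop) (q : V → Prop)
    [DecidablePred p] [DecidablePred q] (hn : ¬ p none) (h : ∀ v, p (some v) ↔ q v) (f : Option V → M) (g : V → M)
    (hfg : ∀ v, q v → f (some v) = g v) : ∑ x ∈ univ.filter p, f x = ∑ v ∈ univ.filter q, g v := by
  rw [Finset.sum_filter, Finset.sum_filter, Fintype.sum_option, if_neg hn, zero_add]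
  refine Finset.sum_congr rfl fun v _ => ?_
  by_cases h1 : q v
  · rw [if_pos h1, if_pos ((h v).2 h1), hfg v h1]
  · rw [if_neg h1, if_neg (fun h2 => h1 ((h v).1 h2))]

theorem Rb_dg {V : Type} [Fintype V] (H : SimpleGraph V) (Lo : Finset V) (v : V) :
    dg (Rb_H H Lo) (some v) = (if v ∈ Lo then 1 else 0) + dg H v := by
  unfold dg
  rw [Finset.card_filter, Finset.card_filter, Fintype.sum_option]
  congr 1
  · by_cases h : v ∈ Lo
    · rw [if_pos h, if_pos ((Rb_sn H Lo v).2 h)]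
    · rw [if_neg h, if_neg (fun h2 => h ((Rb_sn H Lo v).1 h2))]
  · refine Finset.sum_congr rfl fun u _ => ?_
    by_cases h : H.Adj v u
    · rw [if_pos h, if_pos ((Rb_ss H Lo v u).2 h)]
    · rw [if_neg h, if_neg (fun h2 => h ((Rb_ss H Lo v u).1 h2))]

theorem Rb_dgn {V : Type} [Fintype V] (H : SimpleGraph V) (Lo : Finset V) :
    dg (Rb_H H Lo) none = Lo.card := by
  unfold dg
  rw [Rb_card _ (fun v => v ∈ Lo) (fun h => (Rb_H H Lo).irrefl h) (fun v => Rb_ns H Lo v)]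
  congr 1
  ext v
  simp

theorem rb {V : Type} [Fintype V] (H : SimpleGraph V) (nd : V → ℕ) (k N : ℕ)
    (hnd : ∀ v, nd v ≤ 2 * k) (h1 : ∀ w ∈ pt nd (2 * k), dg H w + 2 ≤ N)
    (h2 : ∀ v, nd v < 2 * k → dg H v + 1 ≤ N) (h3 : (pt nd (2 * k)).card + 1 ≤ N) :
    ∃ (mm : ℕ → V → V) (c0 : V → ℕ), Col H N mm ∧
      (∀ w ∈ pt nd (2 * k), c0 w < N ∧ mm (c0 w) w = w) ∧
      (∀ w ∈ pt nd (2 * k), ∀ w' ∈ pt nd (2 * k), c0 w = c0 w' → w = w') ∧
      (∀ ℓ < N, N * (univ.filter fun v => nd v < 2 * k ∧ mm ℓ v ≠ v).card ≤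
        ∑ v ∈ univ.filter (fun v => nd v < 2 * k), dg H v + 4 * k * N) ∧
      ∀ i < k, 30 * |∑ v ∈ pt nd (2 * i), (dg H v : ℤ) -
          ∑ v ∈ pt nd (2 * i + 1), (dg H v : ℤ)| ≤ N →
        (∀ ℓ < N, |uu nd (mm ℓ) i| ≤ 3) ∧
          10 * ∑ ℓ ∈ range N, max 0 (-uu nd (mm ℓ) i) ≤ 7 * N := by
  obtain ⟨Lo, hLo⟩ : ∃ Lo : Finset V, Lo = pt nd (2 * k) := ⟨_, rfl⟩
  have hmem : ∀ v, v ∈ Lo ↔ nd v = 2 * k := by
    intro v
    rw [hLo]
    unfold pt
    simp
  rw [← hLo] at h1 h3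
  obtain ⟨mm0, hm0⟩ := viz (Rb_H H Lo) N (by
    intro x
    rcases x with _ | v
    · rw [Rb_dgn]
      exact h3
    · rw [Rb_dg]
      by_cases hv : v ∈ Lo
      · rw [if_pos hv]
        have := h1 v hv
        omega
      · rw [if_neg hv]
        have h4 := hnd v
        have h5 : nd v ≠ 2 * k := fun h => hv ((hmem v).2 h)
        have := h2 v (by omega)
        omega)
  obtain ⟨nd', hnd'⟩ : ∃ nd' : Option V → ℕ, nd' = fun x => x.elim (2 * k) nd := ⟨_, rfl⟩
  have hn0 : nd' none = 2 * k := by rw [hnd']; rfl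
  have hns : ∀ v, nd' (some v) = nd v := by intro v; rw [hnd']; rfl
  obtain ⟨mm', hc, hA, hB⟩ := blk (Rb_H H Lo) nd' k N mm0 hm0
  obtain ⟨mm, hmm⟩ : ∃ mm : ℕ → V → V, mm = fun ℓ v => (mm' ℓ (some v)).getD v := ⟨_, rfl⟩
  have mS : ∀ ℓ v u, mm' ℓ (some v) = some u → mm ℓ v = u := by
    intro ℓ v u h
    rw [hmm]
    simp only
    rw [h]
    rfl
  have mN : ∀ ℓ v, mm' ℓ (some v) = none → mm ℓ v = v := by
    intro ℓ v h
    rw [hmm]
    simp only
    rw [h]
    rfl
  have hcol : Col H N mm := by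
    refine ⟨?_, ?_, ?_, ?_⟩
    · intro ℓ hℓ v
      rcases h : mm' ℓ (some v) with _ | u
      · rw [mN ℓ v h, mN ℓ v h]
      · rw [mS ℓ v u h]
        have h5 := hc.inv ℓ hℓ (some v)
        rw [h] at h5
        exact mS ℓ u v h5
    · intro ℓ hℓ v hv
      rcases h : mm' ℓ (some v) with _ | u
      · exact absurd (mN ℓ v h) hv
      · rw [mS ℓ v u h] at hv ⊢
        have h5 := hc.adj ℓ hℓ (some v) (by
          rw [h]
          exact fun h6 => hv (Option.some_injective _ h6))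
        rw [h, Rb_ss] at h5
        exact h5
    · intro i hi j hj hij v hv
      rcases h : mm' i (some v) with _ | u
      · exact absurd (mN i v h) hv
      · rw [mS i v u h] at hv ⊢
        have h5 := hc.dis i hi j hj hij (some v) (by
          rw [h]
          exact fun h6 => hv (Option.some_injective _ h6))
        rw [h] at h5
        rcases h7 : mm' j (some v) with _ | u2
        · rw [mN j v h7]
          exact hv
        · rw [mS j v u2 h7]
          rw [h7] at h5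
          exact fun h8 => h5 (by rw [h8])
    · intro a b hab
      obtain ⟨ℓ, hℓ, h⟩ := hc.cov (some a) (some b) ((Rb_ss H Lo a b).2 hab)
      exact ⟨ℓ, hℓ, mS ℓ a b h⟩
  have hce : ∀ w, ∃ ℓ, w ∈ Lo → ℓ < N ∧ mm' ℓ none = some w := by
    intro w
    by_cases hw : w ∈ Lo
    · obtain ⟨ℓ, hℓ, h⟩ := hc.cov none (some w) ((Rb_ns H Lo w).2 hw)
      exact ⟨ℓ, fun _ => ⟨hℓ, h⟩⟩
    · exact ⟨0, fun h => absurd h hw⟩
  choose c0 hc0 using hce
  -- vertices of the pieces
  have hmove : ∀ ℓ < N, ∀ v, nd v < 2 * k → (mm' ℓ (some v) ≠ some v ↔ mm ℓ v ≠ v) := by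
    intro ℓ hℓ v hv
    rcases h : mm' ℓ (some v) with _ | u
    · exfalso
      have h5 := hc.adj ℓ hℓ (some v) (by rw [h]; exact fun h6 => by cases h6)
      rw [h, Rb_sn, hmem] at h5
      omega
    · rw [mS ℓ v u h]
      constructor
      · intro h5 h6
        exact h5 (by rw [h6])
      · intro h5 h6
        exact h5 (Option.some_injective _ h6)
  have hdg : ∀ v, nd v < 2 * k → dg (Rb_H H Lo) (some v) = dg H v := by
    intro v hv
    rw [Rb_dg, if_neg, zero_add]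
    rw [hmem]
    omega
  have hpc : ∀ ℓ < N, ∀ j < 2 * k, ((pt nd' j).filter fun x => mm' ℓ x ≠ x).card =
      ((pt nd j).filter fun v => mm ℓ v ≠ v).card := by
    intro ℓ hℓ j hj
    unfold pt
    rw [Finset.filter_filter, Finset.filter_filter]
    refine Rb_card _ _ (fun h => ?_) (fun v => ?_)
    · rw [hn0] at h
      omega
    · rw [hns]
      constructor
      · rintro ⟨h5, h6⟩
        exact ⟨h5, (hmove ℓ hℓ v (by omega)).1 h6⟩
      · rintro ⟨h5, h6⟩
        exact ⟨h5, (hmove ℓ hℓ v (by omega)).2 h6⟩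
  have huu : ∀ ℓ < N, ∀ i < k, uu nd' (mm' ℓ) i = uu nd (mm ℓ) i := by
    intro ℓ hℓ i hi
    unfold uu
    have e1 := hpc ℓ hℓ (2 * i) (by omega)
    have e2 := hpc ℓ hℓ (2 * i + 1) (by omega)
    refine congrArg₂ (fun x y : ℕ => (x : ℤ) - y) ?_ ?_
    · convert e1
    · convert e2
  have hsum : ∀ j < 2 * k, ∑ x ∈ pt nd' j, (dg (Rb_H H Lo) x : ℤ) = ∑ v ∈ pt nd j, (dg H v : ℤ) := by
    intro j hj
    unfold pt
    refine Rb_sum _ _ (fun h => ?_) (fun v => ?_) _ _ (fun v hv => ?_)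
    · rw [hn0] at h
      omega
    · rw [hns]
    · rw [hdg v (by omega)]
  rw [← hLo]
  refine ⟨mm, c0, hcol, ?_, ?_, ?_, ?_⟩
  · intro w hw
    obtain ⟨h5, h6⟩ := hc0 w hw
    refine ⟨h5, mN _ _ ?_⟩
    have h7 := hc.inv _ h5 none
    rw [h6] at h7
    exact h7
  · intro w hw w' hw' h
    have h5 := (hc0 w hw).2
    have h6 := (hc0 w' hw').2
    rw [h, h6] at h5
    exact (Option.some_injective _ h5).symm
  · intro ℓ hℓ
    have h5 : N * (univ.filter fun x : Option V => nd' x < 2 * k ∧ mm' ℓ x ≠ x).card ≤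
        ∑ x ∈ univ.filter (fun x : Option V => nd' x < 2 * k), dg (Rb_H H Lo) x + 4 * k * N := by
      convert hA ℓ hℓ
    rw [Rb_card (fun x => nd' x < 2 * k ∧ mm' ℓ x ≠ x) (fun v => nd v < 2 * k ∧ mm ℓ v ≠ v)
      (fun h => by rw [hn0] at h; omega) (fun v => by
        rw [hns]
        constructor
        · rintro ⟨h6, h7⟩
          exact ⟨h6, (hmove ℓ hℓ v h6).1 h7⟩
        · rintro ⟨h6, h7⟩
          exact ⟨h6, (hmove ℓ hℓ v h6).2 h7⟩)] at h5
    rw [Rb_sum (fun x => nd' x < 2 * k) (fun v => nd v < 2 * k)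
      (fun h => by rw [hn0] at h; omega) (fun v => by rw [hns]) _ (fun v => dg H v)
      (fun v hv => hdg v hv)] at h5
    exact h5
  · intro i hi h
    have h5 := hB i hi (by
      rw [hsum (2 * i) (by omega), hsum (2 * i + 1) (by omega)]
      exact h)
    refine ⟨fun ℓ hℓ => ?_, ?_⟩
    · rw [← huu ℓ hℓ i hi]
      exact h5.1 ℓ hℓ
    · have e : ∑ ℓ ∈ range N, max 0 (-uu nd (mm ℓ) i) = ∑ ℓ ∈ range N, max 0 (-uu nd' (mm' ℓ) i) :=
        Finset.sum_congr rfl fun ℓ hℓ => by rw [huu ℓ (Finset.mem_range.1 hℓ) i hi]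
      rw [e]
      exact h5.2

end Pool.Agent.H2.FC
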