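import Mathlib
import Pool.Agent.H71.TD.Ifc
import Pool.Agent.H2.FC.Fgs
import Pool.Agent.H2.FC.Des
import Pool.Agent.H2.FC.Hal
import Pool.Agent.H2.FC.Rb
import Pool.Agent.H2.FC.Glu

/-!
ASM: the colouring of the defect edges, without the choice of the constants (complete; it uses the rows Fgs, Des, Hal, Rb, Glu).
-/

set_option autoImplicit false

namespace Pool.Agent.H2.FC

open Finset Classical
open Pool.Agent.H71.DN Pool.Agent.H71.DX Pool.Agent.H71.DR Pool.Agent.H71.HL Pool.Agent.H71.DC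
open Pool.Agent.H71.TD Pool.Agent.H2.NE

/-- The edges of `F` that are in none of `F1, F2`. -/
def rst {V : Type} (F F1 F2 : SimpleGraph V) : SimpleGraph V where
  Adj a b := F.Adj a b ∧ ¬ F1.Adj a b ∧ ¬ F2.Adj a b
  symm := ⟨fun _ _ h => ⟨h.1.symm, fun h' => h.2.1 h'.symm, fun h' => h.2.2 h'.symm⟩⟩
  loopless := ⟨fun _ h => F.irrefl h.1⟩

theorem dg_mono {V : Type} [Fintype V] (F1 F : SimpleGraph V) (h : F1 ≤ F) (v : V) :
    dg F1 v ≤ dg F v := by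
  unfold dg
  exact card_le_card fun u hu => by
    simp only [mem_filter, mem_univ, true_and] at hu ⊢
    exact h hu

theorem bal_le {V : Type} [Fintype V] (F F1 : SimpleGraph V) (A B : Finset V) (θ e : ℝ)
    (hF : ∑ v ∈ A, dg F v = ∑ v ∈ B, dg F v)
    (hA : |∑ v ∈ A, (dg F1 v : ℝ) - θ * ∑ v ∈ A, (dg F v : ℝ)| ≤ e)
    (hB : |∑ v ∈ B, (dg F1 v : ℝ) - θ * ∑ v ∈ B, (dg F v : ℝ)| ≤ e) :
    (((|∑ v ∈ A, (dg F1 v : ℤ) - ∑ v ∈ B, (dg F1 v : ℤ)| : ℤ)) : ℝ) ≤ 2 * e := by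
  have h1 : (∑ v ∈ A, (dg F v : ℝ)) = ∑ v ∈ B, (dg F v : ℝ) := by exact_mod_cast hF
  push_cast
  rw [h1] at hA
  have h2 := abs_le.1 hA
  have h3 := abs_le.1 hB
  rw [abs_le]
  constructor <;> linarith [h2.1, h2.2, h3.1, h3.2]

theorem sm_blk {V : Type} [Fintype V] (F F1 : SimpleGraph V) (hle : F1 ≤ F) (nd : V → ℕ)
    (k b t : ℕ) (f δ : ℝ) (ht : 0 < t) (htb : t ≤ b) (x : ℕ)
    (hx : b * x ≤ ∑ v ∈ univ.filter (fun v => nd v < 2 * k), dg F1 v + 4 * k * b)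
    (hF : ((∑ v ∈ univ.filter fun v => nd v < 2 * k, dg F v : ℕ) : ℝ) ≤
      f * (Fintype.card V : ℝ) ^ 2)
    (h8 : (8 : ℝ) * k ≤ δ * Fintype.card V)
    (hf : 2 * f * (Fintype.card V : ℝ) ^ 2 ≤ δ * Fintype.card V * t) :
    (x : ℝ) ≤ δ * Fintype.card V := by
  have h1 : ∑ v ∈ univ.filter (fun v => nd v < 2 * k), dg F1 v ≤
      ∑ v ∈ univ.filter (fun v => nd v < 2 * k), dg F v :=
    sum_le_sum fun v _ => dg_mono F1 F hle v
  have h2 : ((b * x : ℕ) : ℝ) ≤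
      ((∑ v ∈ univ.filter (fun v => nd v < 2 * k), dg F v + 4 * k * b : ℕ) : ℝ) := by
    exact_mod_cast le_trans hx (by omega)
  push_cast at h2 hF
  have hb : (0 : ℝ) < b := by exact_mod_cast lt_of_lt_of_le ht htb
  have htb' : (t : ℝ) ≤ b := by exact_mod_cast htb
  have h0 : (0 : ℝ) ≤ δ * Fintype.card V := le_trans (by positivity) h8
  have h3 : (b : ℝ) * x ≤ b * (δ * Fintype.card V) := by
    have h4 : δ * Fintype.card V * t ≤ δ * Fintype.card V * b :=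
      mul_le_mul_of_nonneg_left htb' h0
    have h5 : (8 : ℝ) * k * b ≤ δ * Fintype.card V * b := mul_le_mul_of_nonneg_right h8 hb.le
    nlinarith
  exact le_of_mul_le_mul_left h3 hb

theorem asm {V : Type} [Fintype V] (G : SimpleGraph V) (Δ k KE KB t B : ℕ)
    (c x ξ ζ f η f1 δ : ℝ) (ty : ℕ → Prop) (nd qt : V → ℕ) (sf : ℕ → Finset V)
    (hS : Str G Δ c x ξ ζ f k ty nd sf) (hP : Spl G k ty nd qt η KE KB f1)
    (ht : 0 < t) (h24 : 24 * t ≤ Δ) (hlo : 3 * (pt nd (2 * k)).card ≤ t)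
    (hξ : 2 * (ξ * Fintype.card V) ≤ t) (hB1 : f1 * Fintype.card V ≤ B) (hB2 : 2 * B ≤ Δ)
    (herr : 120 * ((2 * ((2 * k : ℕ) : ℝ) + 4) * (pt nd (2 * k)).card + 2 * B +
      ((2 * k : ℕ) : ℝ) * (2 + B)) ≤ t)
    (h8 : (8 : ℝ) * k ≤ δ * Fintype.card V)
    (hf : 2 * f * (Fintype.card V : ℝ) ^ 2 ≤ δ * Fintype.card V * t) :
    ∃ (φ : ℕ → V → V) (c0 : V → ℕ), FcOut G Δ k ty nd qt t δ φ c0 := by
  have hnd : ∀ v, nd v ≤ 2 * k := hS.le
  have hdeg : ∀ w ∈ pt nd (2 * k), dg (Fg G k ty nd) w = Δ :=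
    fun w hw => fg_lo G Δ c x ξ ζ f k ty nd sf hS w hw
  have hhi : ∀ v, nd v < 2 * k → (dg (Fg G k ty nd) v : ℝ) ≤ ξ * Fintype.card V :=
    fun v hv => fg_hi G Δ c x ξ ζ f k ty nd sf hS v hv
  have hbalF : ∀ i < k, ¬ ty i → ∑ v ∈ pt nd (2 * i), dg (Fg G k ty nd) v =
      ∑ v ∈ pt nd (2 * i + 1), dg (Fg G k ty nd) v :=
    fun i hi hty => fg_bal G Δ c x ξ ζ f k ty nd sf hS i hi hty
  have hgs : ∑ w ∈ pt nd (2 * k), ∑ P ∈ range (2 * k),
      ((dgi (Fg G k ty nd) (pt nd P) w -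
          8 * dgi (Fg G k ty nd) ((pt nd P).filter fun v => qt v < 2) w) +
        (dgi (Fg G k ty nd) (pt nd P) w -
          8 * dgi (Fg G k ty nd) ((pt nd P).filter fun v => 2 ≤ qt v) w)) ≤ B := by
    have h1 := le_trans hP.gs1 hB1
    have h2 : ∑ w ∈ pt nd (2 * k), ∑ j ∈ range (2 * k),
        ((dgi G (pt nd j) w - 8 * dgi G ((pt nd j).filter fun v => qt v < 2) w) +
          (dgi G (pt nd j) w - 8 * dgi G ((pt nd j).filter fun v => 2 ≤ qt v) w)) ≤ B := by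
      exact_mod_cast h1
    refine le_trans (le_of_eq ?_) h2
    refine sum_congr rfl fun w hw => sum_congr rfl fun P _ => ?_
    rw [fg_dgi G k ty nd w hw, fg_dgi G k ty nd w hw, fg_dgi G k ty nd w hw]
  have hgs2 : ∀ P < 2 * k, ∀ P' < 2 * k,
      (ee (Fg G k ty nd) (pt nd P) (pt nd P') : ℝ) ≤
        16 * ee (Fg G k ty nd) ((pt nd P).filter fun v => qt v < 2)
        ((pt nd P').filter fun v => qt v < 2) + B ∧
      (ee (Fg G k ty nd) (pt nd P) (pt nd P') : ℝ) ≤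
        16 * ee (Fg G k ty nd) ((pt nd P).filter fun v => 2 ≤ qt v)
        ((pt nd P').filter fun v => 2 ≤ qt v) + B := by
    intro P hP' P' hP''
    have h1 := hP.gs2 P hP' P' hP''
    exact ⟨by linarith [h1.1], by linarith [h1.2]⟩
  obtain ⟨F1, F2, hF1, hF2, h12, hq1, hq2, hd, hbal⟩ := des (Fg G k ty nd) nd qt (2 * k) Δ t B hnd
    (by omega) hdeg h24 (by omega) (by omega) hB2 hgs hgs2
  have hpw : ∀ v, v ∉ pt nd (2 * k) → nd v < 2 * k := by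
    intro v hv
    have h1 : nd v ≠ 2 * k := fun h => hv (by
      unfold pt
      simp only [mem_filter, mem_univ, true_and]
      exact h)
    have h2 := hnd v
    omega
  have hle2 : ∀ (F' : SimpleGraph V), F' ≤ Fg G k ty nd → ∀ a b, a ∉ pt nd (2 * k) →
      b ∉ pt nd (2 * k) → dg F' a + dg F' b ≤ t := by
    intro F' hF' a b ha hb
    have h1 := hhi a (hpw a ha)
    have h2 := hhi b (hpw b hb)
    have h3 := dg_mono F' _ hF' a
    have h4 := dg_mono F' _ hF' b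
    have h5 : ((dg (Fg G k ty nd) a + dg (Fg G k ty nd) b : ℕ) : ℝ) ≤ t := by
      push_cast
      linarith
    have h6 : dg (Fg G k ty nd) a + dg (Fg G k ty nd) b ≤ t := by exact_mod_cast h5
    omega
  obtain ⟨mm1', hc1'⟩ := hal F1 (pt nd (2 * k)) t (fun w hw => (hd w hw).1)
    (fun a b _ ha hb => hle2 F1 hF1 a b ha hb) hlo
  obtain ⟨mm2', hc2'⟩ := hal F2 (pt nd (2 * k)) t (fun w hw => (hd w hw).2)
    (fun a b _ ha hb => hle2 F2 hF2 a b ha hb) hlo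
  obtain ⟨mm1, hc1, hs1, hb1⟩ := blk F1 nd k t mm1' hc1'
  obtain ⟨mm2, hc2, hs2, hb2⟩ := blk F2 nd k t mm2' hc2'
  have h3a : ∀ a b, (rst (Fg G k ty nd) F1 F2).Adj a b ↔ (Fg G k ty nd).Adj a b ∧
      ¬ F1.Adj a b ∧ ¬ F2.Adj a b := fun a b => Iff.rfl
  have hF3 : rst (Fg G k ty nd) F1 F2 ≤ Fg G k ty nd := fun a b h => h.1
  have hdeg3 := glu_dg (Fg G k ty nd) F1 F2 (rst (Fg G k ty nd) F1 F2) hF1 hF2 h12 h3a
  set N := Δ + 2 - 2 * t with hN
  obtain ⟨mm3, c0, hc3, hc0, hci, hs3, hb3⟩ := rb (rst (Fg G k ty nd) F1 F2) nd k N hnd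
    (fun w hw => by
      have h1 := hdeg3 w
      have h2 := hd w hw
      have h3 := hdeg w hw
      omega)
    (fun v hv => by
      have h1 := hhi v hv
      have h2 := dg_mono _ _ hF3 v
      have h3 : ((dg (Fg G k ty nd) v : ℕ) : ℝ) ≤ t := by
        have h4 : (0 : ℝ) ≤ t := Nat.cast_nonneg t
        linarith
      have h4 : dg (Fg G k ty nd) v ≤ t := by exact_mod_cast h3
      omega)
    (by omega)
  have hC := glu (Fg G k ty nd) F1 F2 (rst (Fg G k ty nd) F1 F2) hF1 hF2 h12 h3a t N mm1 mm2 mm3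
    hc1 hc2 hc3
  have hNe : 2 * t + N = Δ + 2 := by omega
  rw [hNe] at hC
  -- the balances
  have e1 : ∀ i < k, ¬ ty i → 30 * |∑ v ∈ pt nd (2 * i), (dg F1 v : ℤ) -
      ∑ v ∈ pt nd (2 * i + 1), (dg F1 v : ℤ)| ≤ t := by
    intro i hi hty
    have h1 := bal_le (Fg G k ty nd) F1 (pt nd (2 * i)) (pt nd (2 * i + 1)) _ _ (hbalF i hi hty)
      (hbal (2 * i) (by omega)).1 (hbal (2 * i + 1) (by omega)).1
    have h2 : ((30 * |∑ v ∈ pt nd (2 * i), (dg F1 v : ℤ) -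
      ∑ v ∈ pt nd (2 * i + 1), (dg F1 v : ℤ)| : ℤ) : ℝ) ≤ ((t : ℤ) : ℝ) := by
      have h3 : (0 : ℝ) ≤ t := Nat.cast_nonneg t
      rw [Int.cast_mul]
      push_cast at h1 herr ⊢
      linarith
    exact_mod_cast h2
  have e2 : ∀ i < k, ¬ ty i → 30 * |∑ v ∈ pt nd (2 * i), (dg F2 v : ℤ) -
      ∑ v ∈ pt nd (2 * i + 1), (dg F2 v : ℤ)| ≤ t := by
    intro i hi hty
    have h1 := bal_le (Fg G k ty nd) F2 (pt nd (2 * i)) (pt nd (2 * i + 1)) _ _ (hbalF i hi hty)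
      (hbal (2 * i) (by omega)).2 (hbal (2 * i + 1) (by omega)).2
    have h2 : ((30 * |∑ v ∈ pt nd (2 * i), (dg F2 v : ℤ) -
      ∑ v ∈ pt nd (2 * i + 1), (dg F2 v : ℤ)| : ℤ) : ℝ) ≤ ((t : ℤ) : ℝ) := by
      have h3 : (0 : ℝ) ≤ t := Nat.cast_nonneg t
      rw [Int.cast_mul]
      push_cast at h1 herr ⊢
      linarith
    exact_mod_cast h2
  have e3 : ∀ i < k, ¬ ty i →
      30 * |∑ v ∈ pt nd (2 * i), (dg (rst (Fg G k ty nd) F1 F2) v : ℤ) -
      ∑ v ∈ pt nd (2 * i + 1), (dg (rst (Fg G k ty nd) F1 F2) v : ℤ)| ≤ N := by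
    intro i hi hty
    have h1 := e1 i hi hty
    have h2 := e2 i hi hty
    have hsum : ∀ A : Finset V, ∑ v ∈ A, (dg (rst (Fg G k ty nd) F1 F2) v : ℤ) =
        ∑ v ∈ A, (dg (Fg G k ty nd) v : ℤ) - ∑ v ∈ A, (dg F1 v : ℤ) -
          ∑ v ∈ A, (dg F2 v : ℤ) := by
      intro A
      rw [← sum_sub_distrib, ← sum_sub_distrib]
      refine sum_congr rfl fun v _ => ?_
      have h3 := hdeg3 v
      omega
    have h3 : (∑ v ∈ pt nd (2 * i), (dg (Fg G k ty nd) v : ℤ)) =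
        ∑ v ∈ pt nd (2 * i + 1), (dg (Fg G k ty nd) v : ℤ) := by
      exact_mod_cast hbalF i hi hty
    rw [hsum, hsum, h3]
    have h4 : (∑ v ∈ pt nd (2 * i + 1), (dg (Fg G k ty nd) v : ℤ) -
          ∑ v ∈ pt nd (2 * i), (dg F1 v : ℤ) - ∑ v ∈ pt nd (2 * i), (dg F2 v : ℤ) -
        (∑ v ∈ pt nd (2 * i + 1), (dg (Fg G k ty nd) v : ℤ) -
          ∑ v ∈ pt nd (2 * i + 1), (dg F1 v : ℤ) - ∑ v ∈ pt nd (2 * i + 1), (dg F2 v : ℤ))) =
        -((∑ v ∈ pt nd (2 * i), (dg F1 v : ℤ) - ∑ v ∈ pt nd (2 * i + 1), (dg F1 v : ℤ)) +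
          (∑ v ∈ pt nd (2 * i), (dg F2 v : ℤ) - ∑ v ∈ pt nd (2 * i + 1), (dg F2 v : ℤ))) := by
      ring
    rw [h4, abs_neg]
    have h5 := abs_add_le (∑ v ∈ pt nd (2 * i), (dg F1 v : ℤ) -
      ∑ v ∈ pt nd (2 * i + 1), (dg F1 v : ℤ))
      (∑ v ∈ pt nd (2 * i), (dg F2 v : ℤ) - ∑ v ∈ pt nd (2 * i + 1), (dg F2 v : ℤ))
    omega
  have htN : t ≤ N := by omega
  refine ⟨fun ℓ => if ℓ < t then mm1 ℓ else if ℓ < 2 * t then mm2 (ℓ - t) else mm3 (ℓ - 2 * t),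
    fun w => c0 w + 2 * t, ?_⟩
  have hlt1 : ∀ {w}, w ∈ pt nd (2 * k) → c0 w + 2 * t < Δ + 2 := by
    intro w hw
    have h1 := (hc0 w hw).1
    omega
  refine ⟨hC.inv, hC.adj, hC.dis, hC.cov, ?_, ?_, ?_, ?_, ?_, ?_, ?_⟩
  · intro ℓ hℓ v hv hqv
    simp only [hℓ, if_true]
    by_contra hne
    have h1 := hc1.adj ℓ hℓ v hne
    rcases hq1 _ _ h1 with h2 | h2
    · omega
    · omega
  · intro ℓ hℓ hℓ2 v hv hqv
    simp only [not_lt.2 hℓ, if_false, hℓ2, if_true]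
    by_contra hne
    have h1 := hc2.adj (ℓ - t) (by omega) v hne
    rcases hq2 _ _ h1 with h2 | h2
    · omega
    · omega
  · intro w hw
    refine ⟨by omega, hlt1 hw, ?_⟩
    have h1 : ¬ (c0 w + 2 * t < t) := by omega
    have h2 : ¬ (c0 w + 2 * t < 2 * t) := by omega
    simp only [h1, if_false, h2, Nat.add_sub_cancel]
    exact (hc0 w hw).2
  · intro w hw w' hw' h
    exact hci w hw w' hw' (by omega)
  · intro ℓ hℓ
    by_cases h1 : ℓ < t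
    · simp only [h1, if_true]
      exact sm_blk (Fg G k ty nd) F1 hF1 nd k t t f δ ht le_rfl _ (hs1 ℓ h1) hS.sm h8 hf
    · by_cases h2 : ℓ < 2 * t
      · simp only [h1, if_false, h2, if_true]
        exact sm_blk (Fg G k ty nd) F2 hF2 nd k t t f δ ht le_rfl _ (hs2 (ℓ - t) (by omega))
          hS.sm h8 hf
      · simp only [h1, if_false, h2]
        exact sm_blk (Fg G k ty nd) _ hF3 nd k N t f δ ht htN _ (hs3 (ℓ - 2 * t) (by omega))
          hS.sm h8 hf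
  · intro i hi hty ℓ hℓ
    by_cases h1 : ℓ < t
    · simp only [h1, if_true]
      exact (hb1 i hi (e1 i hi hty)).1 ℓ h1
    · by_cases h2 : ℓ < 2 * t
      · simp only [h1, if_false, h2, if_true]
        exact (hb2 i hi (e2 i hi hty)).1 (ℓ - t) (by omega)
      · simp only [h1, if_false, h2]
        exact (hb3 i hi (e3 i hi hty)).1 (ℓ - 2 * t) (by omega)
  · intro i hi hty
    have h1 := (hb1 i hi (e1 i hi hty)).2
    have h2 := (hb2 i hi (e2 i hi hty)).2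
    have h3 := (hb3 i hi (e3 i hi hty)).2
    have h4 : ∑ ℓ ∈ range (Δ + 2), max 0 (-uu nd ((fun ℓ => if ℓ < t then mm1 ℓ else
        if ℓ < 2 * t then mm2 (ℓ - t) else mm3 (ℓ - 2 * t)) ℓ) i) =
        ∑ ℓ ∈ range t, max 0 (-uu nd (mm1 ℓ) i) + ∑ ℓ ∈ range t, max 0 (-uu nd (mm2 ℓ) i) +
          ∑ ℓ ∈ range N, max 0 (-uu nd (mm3 ℓ) i) := by
      have h5 : Δ + 2 = (t + t) + N := by omega
      rw [h5, sum_range_add, sum_range_add]
      congr 1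
      · congr 1
        · refine sum_congr rfl fun ℓ hℓ => ?_
          rw [mem_range] at hℓ
          simp only [hℓ, if_true]
        · refine sum_congr rfl fun ℓ hℓ => ?_
          rw [mem_range] at hℓ
          have h6 : ¬ (t + ℓ < t) := by omega
          have h7 : t + ℓ < 2 * t := by omega
          have h8 : t + ℓ - t = ℓ := by omega
          simp only [h6, if_false, h7, if_true, h8]
      · refine sum_congr rfl fun ℓ hℓ => ?_
        have h6 : ¬ (t + t + ℓ < t) := by omega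
        have h7 : ¬ (t + t + ℓ < 2 * t) := by omega
        have h8 : t + t + ℓ - 2 * t = ℓ := by omega
        simp only [h6, if_false, h7, h8]
    have h5 : (5 : ℤ) * ∑ ℓ ∈ range (Δ + 2), max 0 (-uu nd ((fun ℓ => if ℓ < t then mm1 ℓ else
        if ℓ < 2 * t then mm2 (ℓ - t) else mm3 (ℓ - 2 * t)) ℓ) i) ≤ 4 * Δ := by
      rw [h4]
      have h6 : (t : ℤ) + t + N = Δ + 2 := by omega
      have h7 : (24 : ℤ) * t ≤ Δ := by exact_mod_cast h24
      have h8 : (1 : ℤ) ≤ t := by exact_mod_cast ht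
      linarith
    exact h5

end Pool.Agent.H2.FC
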